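import Pool.Agent.X33.DissD

namespace Pool.Agent.X33.DS

/-- no five-element subset of `[1,12]` has distinct subset sums -/
theorem Q124 : Q 12 4 := by decide +kernel

end Pool.Agent.X33.DS
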