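import Mathlib

/-!
# Dissociated sets in finite cyclic groups (helper33, for MP_6c00f2_co)
-/

namespace Pool.Agent.X33.DS

open Finset

/-- `B` is dissociated: the only relation `∑ ε_b b = 0` with `ε_b ∈ {-1,0,1}` is the trivial one. -/
def Dissociated {G : Type*} [AddCommGroup G] (B : Finset G) : Prop :=
  ∀ ε : G → ℤ, (∀ b ∈ B, ε b = -1 ∨ ε b = 0 ∨ ε b = 1) →
    ∑ b ∈ B, ε b • b = 0 → ∀ b ∈ B, ε b = 0

/-- the dissociativity dimension of `A` -/
noncomputable def dimSet {G : Type*} [AddCommGroup G] (A : Finset G) : ℕ :=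
  sSup {d : ℕ | ∃ B : Finset G, B ⊆ A ∧ Dissociated B ∧ B.card = d}

/-- `dim(G,m)` -/
noncomputable def dimGroup (G : Type*) [AddCommGroup G] (m : ℕ) : ℕ :=
  sInf {d : ℕ | ∃ A : Finset G, A.card = m ∧ dimSet A = d}

theorem signed_binary : ∀ (k : ℕ) (s : ℕ → ℤ), (∀ i < k, s i = -1 ∨ s i = 0 ∨ s i = 1) →
    ∑ i ∈ range k, s i * 2 ^ i = 0 → ∀ i < k, s i = 0 := by
  intro k
  induction k with
  | zero => intro s _ _ i hi; omega
  | succ k ih =>
    intro s hs hsum
    rw [Finset.sum_range_succ'] at hsum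
    have h1 : ∑ i ∈ range k, s (i + 1) * 2 ^ (i + 1)
        = 2 * ∑ i ∈ range k, s (i + 1) * 2 ^ i := by
      rw [Finset.mul_sum]
      exact Finset.sum_congr rfl fun i _ => by ring
    rw [h1] at hsum
    have h0 := hs 0 (by omega)
    have h00 : s 0 = 0 := by
      simp only [pow_zero, mul_one] at hsum
      omega
    have h2 : ∑ i ∈ range k, s (i + 1) * 2 ^ i = 0 := by
      rw [h00] at hsum
      simp only [zero_mul, add_zero] at hsum
      omega
    have h3 := ih (fun i => s (i + 1)) (fun i hi => hs (i + 1) (by omega)) h2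
    intro i hi
    rcases i with _ | i
    · exact h00
    · exact h3 i (by omega)

theorem abs_signed : ∀ (k : ℕ) (s : ℕ → ℤ), (∀ i < k, s i = -1 ∨ s i = 0 ∨ s i = 1) →
    |∑ i ∈ range k, s i * 2 ^ i| < 2 ^ k := by
  intro k
  induction k with
  | zero => intro s _; simp
  | succ k ih =>
    intro s hs
    rw [Finset.sum_range_succ]
    have h1 := ih s (fun i hi => hs i (by omega))
    have h2 : |s k * 2 ^ k| ≤ 2 ^ k := by
      rw [abs_mul, abs_pow, abs_two]
      have : |s k| ≤ 1 := by
        rcases hs k (by omega) with h | h | h <;> simp [h]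
      nlinarith [pow_pos (show (0:ℤ) < 2 by norm_num) k]
    have h3 := abs_add_le (∑ i ∈ range k, s i * 2 ^ i) (s k * 2 ^ k)
    rw [pow_succ]
    linarith

/-- indexed family with trivial relations gives a dissociated set -/
theorem of_indexed {G : Type*} [AddCommGroup G] [DecidableEq G] (k : ℕ) (b : ℕ → G)
    (h : ∀ s : ℕ → ℤ, (∀ i < k, s i = -1 ∨ s i = 0 ∨ s i = 1) →
      ∑ i ∈ range k, s i • b i = 0 → ∀ i < k, s i = 0) :
    Dissociated ((range k).image b) ∧ ((range k).image b).card = k := by
  have hinj : Set.InjOn b (range k : Finset ℕ) := by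
    intro i hi j hj hij
    by_contra hne
    have hi' : i < k := by simpa using hi
    have hj' : j < k := by simpa using hj
    have := h (fun l => (if l = i then 1 else 0) - (if l = j then 1 else 0)) (by
      intro l hl
      by_cases h1 : l = i
      · have h2 : l ≠ j := by rw [h1]; exact hne
        simp [h1, hne]
      · by_cases h2 : l = j
        · have h3 : j ≠ i := fun h => hne h.symm
          simp [h2, h3]
        · simp [h1, h2]) (by
      simp only [sub_smul, ite_smul, one_smul, zero_smul]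
      rw [Finset.sum_sub_distrib, Finset.sum_ite_eq', Finset.sum_ite_eq']
      simp [hi', hj', hij]) i hi'
    simp [hne] at this
  constructor
  · intro ε hε hsum x hx
    rw [Finset.sum_image hinj] at hsum
    obtain ⟨i, hi, rfl⟩ := Finset.mem_image.mp hx
    exact h (fun i => ε (b i)) (fun i hi => hε _ (Finset.mem_image_of_mem _ (by simpa using hi)))
      hsum i (by simpa using hi)
  · rw [Finset.card_image_of_injOn hinj, card_range]

theorem card_le {G : Type*} [AddCommGroup G] [Fintype G] (B : Finset G) (hB : Dissociated B) :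
    2 ^ B.card ≤ Fintype.card G := by
  classical
  rw [← Finset.card_powerset, ← Finset.card_univ]
  apply Finset.card_le_card_of_injOn (fun S : Finset G => ∑ x ∈ S, x)
    (fun _ _ => by simp)
  intro S hS T hT hST
  have hS' : S ⊆ B := by simpa using hS
  have hT' : T ⊆ B := by simpa using hT
  have key := hB (fun x => (if x ∈ S then 1 else 0) - (if x ∈ T then 1 else 0)) (by
    intro x _
    by_cases h1 : x ∈ S <;> by_cases h2 : x ∈ T <;> simp [h1, h2]) (by
    simp only [sub_smul, ite_smul, one_smul, zero_smul]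
    rw [Finset.sum_sub_distrib, ← Finset.sum_filter, ← Finset.sum_filter,
      Finset.filter_mem_eq_inter, Finset.filter_mem_eq_inter,
      Finset.inter_eq_right.mpr hS', Finset.inter_eq_right.mpr hT']
    simpa [sub_eq_zero] using hST)
  ext x
  constructor
  · intro hx
    by_contra hx2
    have := key x (hS' hx)
    simp [hx, hx2] at this
  · intro hx
    by_contra hx2
    have := key x (hT' hx)
    simp [hx, hx2] at this

theorem bdd {G : Type*} [AddCommGroup G] (A : Finset G) :
    BddAbove {d : ℕ | ∃ B : Finset G, B ⊆ A ∧ Dissociated B ∧ B.card = d} := by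
  refine ⟨A.card, ?_⟩
  rintro d ⟨B, hB, _, rfl⟩
  exact Finset.card_le_card hB

theorem empty_diss {G : Type*} [AddCommGroup G] : Dissociated (∅ : Finset G) := by
  intro ε _ _ b hb
  simp at hb

/-- a unit multiple of the powers of two, with signs, is dissociated -/
theorem pow_diss (n k : ℕ) (h2 : 2 ^ k ≤ n) (u : (ZMod n)ˣ) (t : ℕ → ℤ)
    (ht : ∀ i < k, t i = 1 ∨ t i = -1) (s : ℕ → ℤ)
    (hs : ∀ i < k, s i = -1 ∨ s i = 0 ∨ s i = 1)
    (hsum : ∑ i ∈ range k, s i • ((t i : ZMod n) * ((u : ZMod n) * 2 ^ i)) = 0) :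
    ∀ i < k, s i = 0 := by
  have h1 : ((∑ i ∈ range k, (s i * t i) * 2 ^ i : ℤ) : ZMod n) = 0 := by
    have h3 : (u : ZMod n) * ((∑ i ∈ range k, (s i * t i) * 2 ^ i : ℤ) : ZMod n) = 0 := by
      rw [← hsum]
      push_cast
      rw [Finset.mul_sum]
      refine Finset.sum_congr rfl fun i _ => ?_
      rw [zsmul_eq_mul]
      ring
    have h4 := congrArg (fun x => ((u⁻¹ : (ZMod n)ˣ) : ZMod n) * x) h3
    simpa [← mul_assoc] using h4
  rw [ZMod.intCast_zmod_eq_zero_iff_dvd] at h1
  have hst : ∀ i < k, s i * t i = -1 ∨ s i * t i = 0 ∨ s i * t i = 1 := by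
    intro i hi
    rcases hs i hi with h | h | h <;> rcases ht i hi with h' | h' <;> simp [h, h']
  have h5 := abs_signed k (fun i => s i * t i) hst
  have h6 : ∑ i ∈ range k, (s i * t i) * 2 ^ i = 0 := by
    apply Int.eq_zero_of_abs_lt_dvd h1
    have : (2:ℤ) ^ k ≤ n := by exact_mod_cast h2
    exact lt_of_lt_of_le h5 this
  have h7 := signed_binary k (fun i => s i * t i) hst h6
  intro i hi
  have h8 := h7 i hi
  rcases ht i hi with h | h
  · simpa [h] using h8
  · simpa [h] using h8

end Pool.Agent.X33.DS
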