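import Pool.Agent.X33.Diss

namespace Pool.Agent.X33.DS

open Finset

theorem two_unit (n : ℕ) (hn : Odd n) : IsUnit (2 : ZMod n) := by
  have := (ZMod.isUnit_iff_coprime 2 n).mpr ((Nat.coprime_two_left).mpr hn)
  simpa using this

theorem lower (n k : ℕ) (hn : Odd n) (h2 : 2 ^ k ≤ n) (A : Finset (ZMod n))
    (hA : 2 * k * ((n - A.card) / 2) < Nat.totient n) : k ≤ dimSet A := by
  classical
  have : NeZero n := ⟨by rintro rfl; simp at hn⟩
  rcases Nat.eq_zero_or_pos k with hk | hk
  · omega
  have hn1 : 1 < n := by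
    have : 2 ^ 1 ≤ 2 ^ k := Nat.pow_le_pow_right (by norm_num) hk
    omega
  have : Fact (1 < n) := ⟨hn1⟩
  have hu2 := two_unit n hn
  set C : Finset (ZMod n) := univ \ A with hC
  have hCcard : C.card = n - A.card := by
    rw [hC, Finset.card_sdiff_of_subset (Finset.subset_univ _), Finset.card_univ, ZMod.card]
  set C' : Finset (ZMod n) := C.filter (fun c => -c ∈ C ∧ c ≠ 0) with hC'
  have hle : C'.card ≤ C.card := Finset.card_filter_le _ _
  have heven : Even C'.card := by
    have h1 : ∑ c ∈ C', (1 : ZMod 2) = 0 := by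
      refine Finset.sum_involution (fun c _ => -c) ?_ ?_ ?_ ?_
      · intro a _; decide
      · intro a ha _ h
        rw [hC', Finset.mem_filter] at ha
        have h3 : (2 : ZMod n) * a = 0 := by
          have : a + a = 0 := by
            nth_rewrite 1 [← h]
            simp
          linear_combination this
        exact ha.2.2 ((IsUnit.mul_right_eq_zero hu2).mp h3)
      · intro a ha
        rw [hC', Finset.mem_filter] at ha ⊢
        refine ⟨ha.2.1, ?_, ?_⟩
        · simpa using ha.1
        · simpa using ha.2.2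
      · intro a ha; simp
    rw [Finset.sum_const, nsmul_eq_mul, mul_one] at h1
    exact (ZMod.natCast_eq_zero_iff_even).mp h1
  have hC'card : C'.card ≤ 2 * ((n - A.card) / 2) := by
    obtain ⟨r, hr⟩ := heven
    rw [hCcard] at hle
    omega
  -- find a good unit
  have hex : ∃ u : (ZMod n)ˣ, ∀ i < k, (u : ZMod n) * 2 ^ i ∈ A ∨ -((u : ZMod n) * 2 ^ i) ∈ A := by
    by_contra hcon
    push Not at hcon
    have hcov : (univ : Finset (ZMod n)ˣ) ⊆
        (range k).biUnion (fun i => univ.filter (fun u : (ZMod n)ˣ => (u : ZMod n) * 2 ^ i ∈ C')) := by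
      intro u _
      obtain ⟨i, hi, h1, h2⟩ := hcon u
      rw [Finset.mem_biUnion]
      refine ⟨i, by simpa using hi, ?_⟩
      rw [Finset.mem_filter, hC', Finset.mem_filter, hC]
      refine ⟨by simp, by simpa using h1, by simpa using h2, ?_⟩
      exact (u.isUnit.mul (hu2.pow i)).ne_zero
    have hcard := Finset.card_le_card hcov
    have hcard2 : ((range k).biUnion (fun i => univ.filter
        (fun u : (ZMod n)ˣ => (u : ZMod n) * 2 ^ i ∈ C'))).card ≤ k * C'.card := by
      have := Finset.card_biUnion_le_card_mul (range k) (fun i => univ.filter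
        (fun u : (ZMod n)ˣ => (u : ZMod n) * 2 ^ i ∈ C')) C'.card (by
          intro i _
          apply Finset.card_le_card_of_injOn (fun u : (ZMod n)ˣ => (u : ZMod n) * 2 ^ i)
          · intro u hu
            simpa using hu
          · intro u _ v _ huv
            have h3 : (u : ZMod n) * 2 ^ i = (v : ZMod n) * 2 ^ i := huv
            exact Units.ext ((hu2.pow i).mul_left_injective h3))
      simpa using this
    rw [Finset.card_univ, ZMod.card_units_eq_totient] at hcard
    have h5 : k * C'.card ≤ 2 * k * ((n - A.card) / 2) := by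
      calc k * C'.card ≤ k * (2 * ((n - A.card) / 2)) := Nat.mul_le_mul_left _ hC'card
        _ = 2 * k * ((n - A.card) / 2) := by ring
    omega
  obtain ⟨u, hu⟩ := hex
  let t : ℕ → ℤ := fun i => if (u : ZMod n) * 2 ^ i ∈ A then 1 else -1
  have ht : ∀ i < k, t i = 1 ∨ t i = -1 := by
    intro i _
    by_cases h : (u : ZMod n) * 2 ^ i ∈ A <;> simp [t, h]
  have hd := of_indexed k (fun i => (t i : ZMod n) * ((u : ZMod n) * 2 ^ i))
    (fun s hs hsum => pow_diss n k h2 u t ht s hs hsum)
  apply le_csSup (bdd A)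
  refine ⟨_, ?_, hd.1, hd.2⟩
  intro x hx
  obtain ⟨i, hi, rfl⟩ := Finset.mem_image.mp hx
  have hi' : i < k := by simpa using hi
  by_cases h : (u : ZMod n) * 2 ^ i ∈ A
  · simpa [t, h] using h
  · have := (hu i hi').resolve_left h
    simpa [t, h] using this

theorem upper {G : Type*} [AddCommGroup G] [Fintype G] (k : ℕ) (hk : Fintype.card G < 2 ^ (k + 1))
    (A : Finset G) : dimSet A ≤ k := by
  apply csSup_le (⟨0, ∅, by simp, empty_diss, by simp⟩ :
    Set.Nonempty {d : ℕ | ∃ B : Finset G, B ⊆ A ∧ Dissociated B ∧ B.card = d})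
  rintro d ⟨B, _, hB, rfl⟩
  have := card_le B hB
  by_contra hcon
  have h3 : 2 ^ (k + 1) ≤ 2 ^ B.card := Nat.pow_le_pow_right (by norm_num) (by omega)
  omega

theorem exact_value (n k m : ℕ) (hn : Odd n) (h2 : 2 ^ k ≤ n) (h3 : n < 2 ^ (k + 1))
    (hm : m ≤ n) (h : 2 * k * ((n - m) / 2) < Nat.totient n) :
    dimGroup (ZMod n) m = k := by
  classical
  have : NeZero n := ⟨by rintro rfl; simp at hn⟩
  have hset : {d : ℕ | ∃ A : Finset (ZMod n), A.card = m ∧ dimSet A = d} = {k} := by
    ext d
    constructor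
    · rintro ⟨A, hA, rfl⟩
      have h4 := lower n k hn h2 A (by rw [hA]; exact h)
      have h5 := upper k (by rw [ZMod.card]; exact h3) A
      simp only [Set.mem_singleton_iff]
      omega
    · intro hd
      have hd' : d = k := hd
      obtain ⟨A, _, hA⟩ := Finset.exists_subset_card_eq
        (show m ≤ (univ : Finset (ZMod n)).card by rw [Finset.card_univ, ZMod.card]; exact hm)
      refine ⟨A, hA, ?_⟩
      have h4 := lower n k hn h2 A (by rw [hA]; exact h)
      have h5 := upper k (by rw [ZMod.card]; exact h3) A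
      omega
  unfold dimGroup
  rw [hset, csInf_singleton]

/-- `φ(2^k+1) > 2k` for `k ≥ 4`. -/
theorem totient_big (k : ℕ) (hk : 4 ≤ k) : 2 * k < Nat.totient (2 ^ k + 1) := by
  classical
  set n := 2 ^ k + 1 with hn
  have hcop2 : ∀ i, Nat.Coprime n (2 ^ i) := by
    intro i
    apply Nat.Coprime.pow_right
    rw [Nat.coprime_comm, Nat.coprime_two_left, hn]
    exact (Nat.even_pow.mpr ⟨even_two, by omega⟩).add_one
  obtain ⟨w, hw1, hw2, hw3⟩ : ∃ w, Nat.Coprime n w ∧ (w = 3 ∨ w = 5) ∧ w < 16 := by
    rcases Nat.even_or_odd k with hev | hod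
    · refine ⟨3, ?_, Or.inl rfl, by norm_num⟩
      rw [Nat.coprime_comm, Nat.Prime.coprime_iff_not_dvd Nat.prime_three]
      obtain ⟨r, hr⟩ := hev
      intro hdvd
      have : (2 ^ k + 1) % 3 = 0 := Nat.mod_eq_zero_of_dvd hdvd
      rw [hr, ← two_mul, pow_mul, Nat.add_mod, Nat.pow_mod] at this
      norm_num at this
    · refine ⟨5, ?_, Or.inr rfl, by norm_num⟩
      rw [Nat.coprime_comm, Nat.Prime.coprime_iff_not_dvd Nat.prime_five]
      obtain ⟨r, hr⟩ := hod
      intro hdvd
      have : (2 ^ k + 1) % 5 = 0 := Nat.mod_eq_zero_of_dvd hdvd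
      rw [hr, pow_succ, pow_mul, Nat.add_mod, Nat.mul_mod, Nat.pow_mod] at this
      rcases Nat.even_or_odd' r with ⟨q, hq | hq⟩
      · rw [hq, pow_mul, Nat.pow_mod] at this
        norm_num at this
      · have e : (2 ^ k + 1) % 5 = (8 * 16 ^ q + 1) % 5 := by
          rw [hr, hq]
          congr 2
          rw [show 2 * (2 * q + 1) + 1 = 4 * q + 3 by ring, pow_add, pow_mul]
          norm_num
          ring
        have h0 : (2 ^ k + 1) % 5 = 0 := Nat.mod_eq_zero_of_dvd hdvd
        rw [e, Nat.add_mod, Nat.mul_mod, Nat.pow_mod] at h0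
        norm_num at h0
  have hk16 : 16 ≤ 2 ^ k := by
    calc 16 = 2 ^ 4 := by norm_num
      _ ≤ 2 ^ k := Nat.pow_le_pow_right (by norm_num) hk
  let S1 : Finset ℕ := (range k).image (fun i => 2 ^ i)
  let S2 : Finset ℕ := (range k).image (fun i => n - 2 ^ i)
  have hpos : ∀ i, 0 < 2 ^ i := fun i => by positivity
  have hlt : ∀ i < k, 2 * 2 ^ i ≤ 2 ^ k := by
    intro i hi
    rw [← pow_succ']
    exact Nat.pow_le_pow_right (by norm_num) hi
  have hpinj : ∀ i j : ℕ, 2 ^ i = 2 ^ j → i = j := fun i j h =>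
    Nat.pow_right_injective (le_refl 2) h
  have hS1 : S1.card = k := by
    rw [Finset.card_image_of_injOn, card_range]
    intro i _ j _ hij
    exact hpinj i j hij
  have hS2 : S2.card = k := by
    rw [Finset.card_image_of_injOn, card_range]
    intro i hi j hj hij
    have hi' : i < k := by simpa using hi
    have hj' : j < k := by simpa using hj
    have h1 := hlt i hi'
    have h2 := hlt j hj'
    have h3 : n - 2 ^ i = n - 2 ^ j := hij
    apply hpinj
    omega
  have hS12 : Disjoint S1 S2 := by
    rw [Finset.disjoint_left]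
    intro x hx hy
    obtain ⟨i, hi, rfl⟩ := Finset.mem_image.mp hx
    obtain ⟨j, hj, hij⟩ := Finset.mem_image.mp hy
    have hi' : i < k := by simpa using hi
    have hj' : j < k := by simpa using hj
    have h1 := hlt i hi'
    have h2 := hlt j hj'
    have h3 : n - 2 ^ j = 2 ^ i := hij
    omega
  have hwS1 : w ∉ S1 := by
    intro hx
    obtain ⟨i, hi, hi2⟩ := Finset.mem_image.mp hx
    have h3 : 2 ^ i = w := hi2
    rcases lt_or_ge i 3 with h | h
    · interval_cases i <;> omega
    · have : 2 ^ 3 ≤ 2 ^ i := Nat.pow_le_pow_right (by norm_num) h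
      omega
  have hwS2 : w ∉ S2 := by
    intro hx
    obtain ⟨i, hi, hi2⟩ := Finset.mem_image.mp hx
    have hi' : i < k := by simpa using hi
    have h1 := hlt i hi'
    have h3 : n - 2 ^ i = w := hi2
    omega
  have hsub : insert w (S1 ∪ S2) ⊆ (range n).filter (fun a => Nat.Coprime n a) := by
    intro x hx
    rw [Finset.mem_filter, Finset.mem_range]
    rcases Finset.mem_insert.mp hx with rfl | hx
    · exact ⟨by omega, hw1⟩
    · rcases Finset.mem_union.mp hx with hx | hx
      · obtain ⟨i, hi, rfl⟩ := Finset.mem_image.mp hx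
        have hi' : i < k := by simpa using hi
        have h1 := hlt i hi'
        have h0 := hpos i
        exact ⟨by show 2 ^ i < n; omega, hcop2 i⟩
      · obtain ⟨i, hi, rfl⟩ := Finset.mem_image.mp hx
        have hi' : i < k := by simpa using hi
        have h1 := hlt i hi'
        have h0 := hpos i
        refine ⟨by show n - 2 ^ i < n; omega, ?_⟩
        show Nat.Coprime n (n - 2 ^ i)
        rw [Nat.coprime_self_sub_right (by omega)]
        exact hcop2 i
  have hc := Finset.card_le_card hsub
  rw [Finset.card_insert_of_notMem (by simp [hwS1, hwS2]),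
    Finset.card_union_of_disjoint hS12, hS1, hS2] at hc
  have htot : Nat.totient n = ((range n).filter (fun a => Nat.Coprime n a)).card := rfl
  omega

theorem log_val (k m : ℕ) (h1 : 2 ^ k ≤ m) (h2 : m < 2 ^ (k + 1)) : Nat.log 2 m = k := by
  have hm : m ≠ 0 := by
    have : 0 < 2 ^ k := by positivity
    omega
  exact (Nat.log_eq_iff (Or.inr ⟨by norm_num, hm⟩)).mpr ⟨h1, h2⟩

end Pool.Agent.X33.DS
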