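import Mathlib

/-!
# Seven positive integers contain a four-element dissociated subset (helper33, for MP_6c00f2_co)
-/

namespace Pool.Agent.X33.DS

/-- the possible signed relations between `0 < a < b < c < d` -/
def ND (a b c d : ℤ) : Prop :=
  a + b = c ∨ a + b = d ∨ a + c = d ∨ b + c = d ∨ a + b + c = d ∨ b + c = a + d

theorem seven_core (x0 x1 x2 x3 x4 x5 x6 : ℤ) (p0 : 0 < x0) (p1 : x0 < x1) (p2 : x1 < x2)
    (p3 : x2 < x3) (p4 : x3 < x4) (p5 : x4 < x5) (p6 : x5 < x6)
    (H0123 : ND x0 x1 x2 x3)
    (H0124 : ND x0 x1 x2 x4)
    (H0125 : ND x0 x1 x2 x5)
    (H0126 : ND x0 x1 x2 x6)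
    (H0134 : ND x0 x1 x3 x4)
    (H0135 : ND x0 x1 x3 x5)
    (H0136 : ND x0 x1 x3 x6)
    (H0145 : ND x0 x1 x4 x5)
    (H0234 : ND x0 x2 x3 x4)
    (H0235 : ND x0 x2 x3 x5)
    (H0245 : ND x0 x2 x4 x5)
    (H1234 : ND x1 x2 x3 x4)
    (H1235 : ND x1 x2 x3 x5)
    (H1345 : ND x1 x3 x4 x5)
    (H1456 : ND x1 x4 x5 x6)
    (H2345 : ND x2 x3 x4 x5)
    (H2456 : ND x2 x4 x5 x6)
    (H3456 : ND x3 x4 x5 x6)
    : False := by
  rcases H0123 with h0 | h0 | h0 | h0 | h0 | h0
  · rcases H0134 with h1 | h1 | h1 | h1 | h1 | h1
    · omega
    · omega
    · rcases H0135 with h2 | h2 | h2 | h2 | h2 | h2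
      · omega
      · omega
      · omega
      · rcases H0136 with h3 | h3 | h3 | h3 | h3 | h3
        · omega
        · omega
        · omega
        · omega
        · rcases H2456 with h4 | h4 | h4 | h4 | h4 | h4 <;> omega
        · omega
      · rcases H0136 with h3 | h3 | h3 | h3 | h3 | h3 <;> omega
      · rcases H0145 with h3 | h3 | h3 | h3 | h3 | h3
        · omega
        · omega
        · rcases H1345 with h4 | h4 | h4 | h4 | h4 | h4 <;> omega
        · omega
        · omega
        · omega
    · rcases H0135 with h2 | h2 | h2 | h2 | h2 | h2
      · omega
      · omega
      · omega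
      · omega
      · rcases H0136 with h3 | h3 | h3 | h3 | h3 | h3 <;> omega
      · omega
    · rcases H0135 with h2 | h2 | h2 | h2 | h2 | h2 <;> omega
    · rcases H0135 with h2 | h2 | h2 | h2 | h2 | h2
      · omega
      · omega
      · rcases H1345 with h3 | h3 | h3 | h3 | h3 | h3 <;> omega
      · rcases H0136 with h3 | h3 | h3 | h3 | h3 | h3
        · omega
        · omega
        · omega
        · omega
        · rcases H1456 with h4 | h4 | h4 | h4 | h4 | h4
          · omega
          · rcases H2456 with h5 | h5 | h5 | h5 | h5 | h5 <;> omega
          · omega
          · omega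
          · omega
          · omega
        · omega
      · rcases H0136 with h3 | h3 | h3 | h3 | h3 | h3 <;> omega
      · omega
  · rcases H0124 with h1 | h1 | h1 | h1 | h1 | h1
    · omega
    · omega
    · rcases H0125 with h2 | h2 | h2 | h2 | h2 | h2
      · omega
      · omega
      · omega
      · rcases H0126 with h3 | h3 | h3 | h3 | h3 | h3
        · omega
        · omega
        · omega
        · omega
        · rcases H3456 with h4 | h4 | h4 | h4 | h4 | h4 <;> omega
        · omega
      · rcases H0126 with h3 | h3 | h3 | h3 | h3 | h3 <;> omega
      · rcases H1235 with h3 | h3 | h3 | h3 | h3 | h3 <;> omega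
    · rcases H0125 with h2 | h2 | h2 | h2 | h2 | h2
      · omega
      · omega
      · omega
      · omega
      · rcases H0126 with h3 | h3 | h3 | h3 | h3 | h3 <;> omega
      · omega
    · rcases H0125 with h2 | h2 | h2 | h2 | h2 | h2 <;> omega
    · rcases H1234 with h2 | h2 | h2 | h2 | h2 | h2
      · omega
      · omega
      · omega
      · omega
      · omega
      · rcases H0125 with h3 | h3 | h3 | h3 | h3 | h3
        · omega
        · omega
        · omega
        · rcases H2345 with h4 | h4 | h4 | h4 | h4 | h4 <;> omega
        · rcases H0126 with h4 | h4 | h4 | h4 | h4 | h4 <;> omega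
        · omega
  · rcases H0124 with h1 | h1 | h1 | h1 | h1 | h1
    · rcases H0134 with h2 | h2 | h2 | h2 | h2 | h2
      · omega
      · omega
      · rcases H0135 with h3 | h3 | h3 | h3 | h3 | h3
        · omega
        · omega
        · omega
        · rcases H0136 with h4 | h4 | h4 | h4 | h4 | h4
          · omega
          · omega
          · omega
          · omega
          · rcases H2456 with h5 | h5 | h5 | h5 | h5 | h5 <;> omega
          · omega
        · rcases H0136 with h4 | h4 | h4 | h4 | h4 | h4 <;> omega
        · rcases H0145 with h4 | h4 | h4 | h4 | h4 | h4
          · omega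
          · omega
          · rcases H1345 with h5 | h5 | h5 | h5 | h5 | h5 <;> omega
          · omega
          · omega
          · omega
      · rcases H0135 with h3 | h3 | h3 | h3 | h3 | h3
        · omega
        · omega
        · omega
        · omega
        · rcases H0136 with h4 | h4 | h4 | h4 | h4 | h4 <;> omega
        · omega
      · rcases H0135 with h3 | h3 | h3 | h3 | h3 | h3 <;> omega
      · rcases H0135 with h3 | h3 | h3 | h3 | h3 | h3
        · omega
        · omega
        · rcases H0245 with h4 | h4 | h4 | h4 | h4 | h4 <;> omega
        · rcases H0136 with h4 | h4 | h4 | h4 | h4 | h4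
          · omega
          · omega
          · omega
          · omega
          · rcases H2456 with h5 | h5 | h5 | h5 | h5 | h5 <;> omega
          · omega
        · rcases H0136 with h4 | h4 | h4 | h4 | h4 | h4 <;> omega
        · omega
    · omega
    · omega
    · rcases H0125 with h2 | h2 | h2 | h2 | h2 | h2
      · rcases H0135 with h3 | h3 | h3 | h3 | h3 | h3
        · omega
        · omega
        · rcases H0245 with h4 | h4 | h4 | h4 | h4 | h4 <;> omega
        · rcases H0136 with h4 | h4 | h4 | h4 | h4 | h4
          · omega
          · omega
          · omega
          · omega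
          · rcases H2456 with h5 | h5 | h5 | h5 | h5 | h5 <;> omega
          · omega
        · rcases H0136 with h4 | h4 | h4 | h4 | h4 | h4 <;> omega
        · omega
      · omega
      · omega
      · omega
      · rcases H0126 with h3 | h3 | h3 | h3 | h3 | h3
        · rcases H0136 with h4 | h4 | h4 | h4 | h4 | h4
          · omega
          · omega
          · omega
          · omega
          · rcases H2456 with h5 | h5 | h5 | h5 | h5 | h5 <;> omega
          · omega
        · omega
        · omega
        · omega
        · omega
        · omega
      · omega
    · rcases H0125 with h2 | h2 | h2 | h2 | h2 | h2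
      · rcases H0135 with h3 | h3 | h3 | h3 | h3 | h3
        · omega
        · omega
        · omega
        · omega
        · rcases H0136 with h4 | h4 | h4 | h4 | h4 | h4 <;> omega
        · omega
      · omega
      · omega
      · omega
      · omega
      · omega
    · rcases H0134 with h2 | h2 | h2 | h2 | h2 | h2
      · omega
      · omega
      · rcases H1234 with h3 | h3 | h3 | h3 | h3 | h3
        · omega
        · omega
        · omega
        · omega
        · omega
        · rcases H0135 with h4 | h4 | h4 | h4 | h4 | h4
          · omega
          · omega
          · omega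
          · rcases H0245 with h5 | h5 | h5 | h5 | h5 | h5 <;> omega
          · rcases H0136 with h5 | h5 | h5 | h5 | h5 | h5 <;> omega
          · rcases H1345 with h5 | h5 | h5 | h5 | h5 | h5 <;> omega
      · omega
      · omega
      · omega
  · rcases H0124 with h1 | h1 | h1 | h1 | h1 | h1
    · rcases H0134 with h2 | h2 | h2 | h2 | h2 | h2
      · omega
      · omega
      · rcases H0135 with h3 | h3 | h3 | h3 | h3 | h3
        · omega
        · omega
        · omega
        · rcases H2345 with h4 | h4 | h4 | h4 | h4 | h4 <;> omega
        · rcases H0136 with h4 | h4 | h4 | h4 | h4 | h4 <;> omega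
        · rcases H0235 with h4 | h4 | h4 | h4 | h4 | h4 <;> omega
      · rcases H0135 with h3 | h3 | h3 | h3 | h3 | h3
        · omega
        · omega
        · omega
        · omega
        · rcases H0136 with h4 | h4 | h4 | h4 | h4 | h4 <;> omega
        · omega
      · rcases H0135 with h3 | h3 | h3 | h3 | h3 | h3 <;> omega
      · rcases H0234 with h3 | h3 | h3 | h3 | h3 | h3
        · omega
        · omega
        · rcases H0135 with h4 | h4 | h4 | h4 | h4 | h4
          · omega
          · omega
          · omega
          · rcases H2345 with h5 | h5 | h5 | h5 | h5 | h5 <;> omega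
          · rcases H0136 with h5 | h5 | h5 | h5 | h5 | h5 <;> omega
          · omega
        · omega
        · omega
        · omega
    · omega
    · omega
    · omega
    · rcases H0125 with h2 | h2 | h2 | h2 | h2 | h2
      · rcases H0135 with h3 | h3 | h3 | h3 | h3 | h3
        · omega
        · omega
        · omega
        · rcases H2345 with h4 | h4 | h4 | h4 | h4 | h4 <;> omega
        · rcases H0136 with h4 | h4 | h4 | h4 | h4 | h4 <;> omega
        · rcases H0235 with h4 | h4 | h4 | h4 | h4 | h4 <;> omega
      · omega
      · omega
      · omega
      · omega
      · omega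
    · omega
  · rcases H0124 with h1 | h1 | h1 | h1 | h1 | h1
    · rcases H0134 with h2 | h2 | h2 | h2 | h2 | h2
      · omega
      · omega
      · rcases H0135 with h3 | h3 | h3 | h3 | h3 | h3
        · omega
        · omega
        · omega
        · rcases H2345 with h4 | h4 | h4 | h4 | h4 | h4 <;> omega
        · rcases H0136 with h4 | h4 | h4 | h4 | h4 | h4 <;> omega
        · rcases H0235 with h4 | h4 | h4 | h4 | h4 | h4 <;> omega
      · rcases H0135 with h3 | h3 | h3 | h3 | h3 | h3
        · omega
        · omega
        · omega
        · omega
        · rcases H0136 with h4 | h4 | h4 | h4 | h4 | h4 <;> omega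
        · omega
      · rcases H0135 with h3 | h3 | h3 | h3 | h3 | h3 <;> omega
      · rcases H0234 with h3 | h3 | h3 | h3 | h3 | h3
        · omega
        · omega
        · rcases H0135 with h4 | h4 | h4 | h4 | h4 | h4
          · omega
          · omega
          · omega
          · rcases H2345 with h5 | h5 | h5 | h5 | h5 | h5 <;> omega
          · rcases H0136 with h5 | h5 | h5 | h5 | h5 | h5 <;> omega
          · omega
        · omega
        · omega
        · omega
    · omega
    · omega
    · omega
    · omega
    · omega
  · rcases H0124 with h1 | h1 | h1 | h1 | h1 | h1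
    · rcases H0134 with h2 | h2 | h2 | h2 | h2 | h2
      · omega
      · omega
      · rcases H0135 with h3 | h3 | h3 | h3 | h3 | h3
        · omega
        · omega
        · omega
        · rcases H0136 with h4 | h4 | h4 | h4 | h4 | h4
          · omega
          · omega
          · omega
          · omega
          · rcases H2456 with h5 | h5 | h5 | h5 | h5 | h5 <;> omega
          · omega
        · rcases H0136 with h4 | h4 | h4 | h4 | h4 | h4 <;> omega
        · rcases H0235 with h4 | h4 | h4 | h4 | h4 | h4 <;> omega
      · rcases H0135 with h3 | h3 | h3 | h3 | h3 | h3
        · omega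
        · omega
        · omega
        · omega
        · rcases H0136 with h4 | h4 | h4 | h4 | h4 | h4 <;> omega
        · omega
      · rcases H0135 with h3 | h3 | h3 | h3 | h3 | h3 <;> omega
      · rcases H1234 with h3 | h3 | h3 | h3 | h3 | h3
        · omega
        · rcases H0135 with h4 | h4 | h4 | h4 | h4 | h4
          · omega
          · omega
          · omega
          · rcases H0136 with h5 | h5 | h5 | h5 | h5 | h5
            · omega
            · omega
            · omega
            · omega
            · rcases H2456 with h6 | h6 | h6 | h6 | h6 | h6 <;> omega
            · omega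
          · rcases H0136 with h5 | h5 | h5 | h5 | h5 | h5 <;> omega
          · omega
        · omega
        · omega
        · omega
        · rcases H0135 with h4 | h4 | h4 | h4 | h4 | h4
          · omega
          · omega
          · omega
          · rcases H0136 with h5 | h5 | h5 | h5 | h5 | h5
            · omega
            · omega
            · omega
            · omega
            · rcases H2456 with h6 | h6 | h6 | h6 | h6 | h6 <;> omega
            · omega
          · rcases H0136 with h5 | h5 | h5 | h5 | h5 | h5 <;> omega
          · omega
    · rcases H0234 with h2 | h2 | h2 | h2 | h2 | h2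
      · omega
      · omega
      · omega
      · omega
      · omega
      · rcases H1234 with h3 | h3 | h3 | h3 | h3 | h3 <;> omega
    · rcases H1234 with h2 | h2 | h2 | h2 | h2 | h2
      · omega
      · omega
      · omega
      · omega
      · omega
      · rcases H0125 with h3 | h3 | h3 | h3 | h3 | h3
        · omega
        · omega
        · omega
        · rcases H1345 with h4 | h4 | h4 | h4 | h4 | h4 <;> omega
        · rcases H0126 with h4 | h4 | h4 | h4 | h4 | h4 <;> omega
        · omega
    · rcases H0125 with h2 | h2 | h2 | h2 | h2 | h2
      · rcases H0135 with h3 | h3 | h3 | h3 | h3 | h3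
        · omega
        · omega
        · omega
        · rcases H0136 with h4 | h4 | h4 | h4 | h4 | h4
          · omega
          · omega
          · omega
          · omega
          · rcases H2456 with h5 | h5 | h5 | h5 | h5 | h5 <;> omega
          · omega
        · rcases H0136 with h4 | h4 | h4 | h4 | h4 | h4 <;> omega
        · rcases H0235 with h4 | h4 | h4 | h4 | h4 | h4 <;> omega
      · omega
      · omega
      · omega
      · rcases H0126 with h3 | h3 | h3 | h3 | h3 | h3
        · rcases H1235 with h4 | h4 | h4 | h4 | h4 | h4
          · omega
          · omega
          · rcases H0136 with h5 | h5 | h5 | h5 | h5 | h5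
            · omega
            · omega
            · omega
            · omega
            · rcases H2456 with h6 | h6 | h6 | h6 | h6 | h6 <;> omega
            · omega
          · omega
          · omega
          · omega
        · omega
        · omega
        · omega
        · omega
        · omega
      · omega
    · rcases H0125 with h2 | h2 | h2 | h2 | h2 | h2
      · rcases H1234 with h3 | h3 | h3 | h3 | h3 | h3
        · omega
        · omega
        · rcases H0135 with h4 | h4 | h4 | h4 | h4 | h4
          · omega
          · omega
          · omega
          · omega
          · rcases H0136 with h5 | h5 | h5 | h5 | h5 | h5 <;> omega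
          · omega
        · omega
        · omega
        · omega
      · omega
      · omega
      · omega
      · omega
      · omega
    · omega

end Pool.Agent.X33.DS
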