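import Pool.Agent.X33.DissB
import Pool.Agent.X33.DissTree

namespace Pool.Agent.X33.DS

open Finset

/-- indexed version over an arbitrary finite index set -/
theorem of_indexed' {ι G : Type*} [AddCommGroup G] [DecidableEq G] [DecidableEq ι]
    (I : Finset ι) (b : ι → G)
    (h : ∀ s : ι → ℤ, (∀ i ∈ I, s i = -1 ∨ s i = 0 ∨ s i = 1) →
      ∑ i ∈ I, s i • b i = 0 → ∀ i ∈ I, s i = 0) :
    Dissociated (I.image b) ∧ (I.image b).card = I.card := by
  have hinj : Set.InjOn b I := by
    intro i hi j hj hij
    by_contra hne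
    have hi' : i ∈ I := hi
    have hj' : j ∈ I := hj
    have := h (fun l => (if l = i then 1 else 0) - (if l = j then 1 else 0)) (by
      intro l hl
      by_cases h1 : l = i
      · have h2 : l ≠ j := by rw [h1]; exact hne
        simp [h1, hne]
      · by_cases h2 : l = j
        · have h3 : j ≠ i := fun h => hne h.symm
          simp [h2, h3]
        · simp [h1, h2]) (by
      simp only [sub_smul, ite_smul, one_smul, zero_smul]
      rw [Finset.sum_sub_distrib, Finset.sum_ite_eq', Finset.sum_ite_eq']
      simp [hi', hj', hij]) i hi'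
    simp [hne] at this
  constructor
  · intro ε hε hsum x hx
    rw [Finset.sum_image hinj] at hsum
    obtain ⟨i, hi, rfl⟩ := Finset.mem_image.mp hx
    exact h (fun i => ε (b i)) (fun i hi => hε _ (Finset.mem_image_of_mem _ hi))
      hsum i hi
  · rw [Finset.card_image_of_injOn hinj]

/-- converse direction: an injectively indexed dissociated set has no signed relation -/
theorem to_indexed {ι G : Type*} [AddCommGroup G] [DecidableEq G]
    (I : Finset ι) (b : ι → G) (hb : Set.InjOn b I) (hd : Dissociated (I.image b))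
    (s : ι → ℤ) (hs : ∀ i ∈ I, s i = -1 ∨ s i = 0 ∨ s i = 1)
    (hsum : ∑ i ∈ I, s i • b i = 0) : ∀ i ∈ I, s i = 0 := by
  classical
  rcases I.eq_empty_or_nonempty with rfl | ⟨i0, hi0⟩
  · intro i hi; simp at hi
  have : Nonempty ι := ⟨i0⟩
  let g : G → ι := Function.invFunOn b I
  have hg : ∀ i ∈ I, g (b i) = i := by
    intro i hi
    exact hb.leftInvOn_invFunOn hi
  have key := hd (fun x => s (g x)) (by
    intro x hx
    obtain ⟨i, hi, rfl⟩ := Finset.mem_image.mp hx
    simp only [hg i hi]
    exact hs i hi) (by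
    rw [Finset.sum_image hb]
    rw [← hsum]
    exact Finset.sum_congr rfl fun i hi => by rw [hg i hi])
  intro i hi
  have := key (b i) (Finset.mem_image_of_mem _ hi)
  simpa [hg i hi] using this

theorem Dissociated.subset {G : Type*} [AddCommGroup G] {B B' : Finset G}
    (hB : Dissociated B) (h : B' ⊆ B) : Dissociated B' := by
  classical
  intro ε hε hsum b hb
  have := hB (fun x => if x ∈ B' then ε x else 0) (by
    intro x _
    by_cases hx : x ∈ B'
    · simpa [hx] using hε x hx
    · simp [hx]) (by
    simp only [ite_smul, zero_smul]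
    rw [← Finset.sum_filter, Finset.filter_mem_eq_inter, Finset.inter_eq_right.mpr h]
    exact hsum) b (h hb)
  simpa [hb] using this

/-- representatives of sign classes -/
theorem reps (n : ℕ) [NeZero n] (q : ℕ) (A : Finset (ZMod n)) (hA : 2 * q ≤ A.card) :
    ∃ r : Fin q → ZMod n, (∀ i, r i ∈ A ∧ r i ≠ 0) ∧
      ∀ i j, i ≠ j → r i ≠ r j ∧ r i ≠ - r j := by
  classical
  let f : ZMod n → ℕ := fun a => min a.val (-a).val
  have hf : ∀ a b, f a = f b → a = b ∨ a = -b := by
    intro a b hab
    have h1 : a.val = b.val ∨ a.val = (-b).val ∨ (-a).val = b.val ∨ (-a).val = (-b).val := by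
      simp only [f] at hab
      rcases min_choice a.val (-a).val with h | h <;> rcases min_choice b.val (-b).val with h' | h' <;>
        rw [h, h'] at hab <;> simp [hab]
    rcases h1 with h | h | h | h
    · exact Or.inl (ZMod.val_injective n h)
    · exact Or.inr (ZMod.val_injective n h)
    · have := ZMod.val_injective n h
      exact Or.inr (by rw [← this]; simp)
    · have := ZMod.val_injective n h
      exact Or.inl (neg_injective this)
  have hfneg : ∀ a, f (-a) = f a := by
    intro a
    simp [f, min_comm]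
  let s := A.erase 0
  have hs : 2 * q ≤ s.card + 1 := by
    have := Finset.pred_card_le_card_erase (s := A) (a := (0 : ZMod n))
    simp only [s]
    omega
  have hfib : ∀ c ∈ s.image f, (s.filter (fun x => f x = c)).card ≤ 2 := by
    intro c hc
    obtain ⟨a, _, rfl⟩ := Finset.mem_image.mp hc
    calc (s.filter (fun x => f x = f a)).card ≤ ({a, -a} : Finset (ZMod n)).card := by
          apply Finset.card_le_card
          intro x hx
          rw [Finset.mem_filter] at hx
          rcases hf x a hx.2 with h | h <;> simp [h]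
      _ ≤ 2 := Finset.card_le_two
  have hcard := Finset.card_le_mul_card_image s 2 hfib
  have hq : q ≤ (s.image f).card := by omega
  obtain ⟨T, hT, hTc⟩ := Finset.exists_subset_card_eq hq
  have hchoose : ∀ i : Fin q, ∃ a ∈ s, f a = T.orderEmbOfFin hTc i := by
    intro i
    have := hT (Finset.orderEmbOfFin_mem T hTc i)
    obtain ⟨a, ha, hfa⟩ := Finset.mem_image.mp this
    exact ⟨a, ha, hfa⟩
  choose r hr1 hr2 using hchoose
  refine ⟨r, ?_, ?_⟩
  · intro i
    have := hr1 i
    simp only [s, Finset.mem_erase] at this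
    exact ⟨this.2, this.1⟩
  · intro i j hij
    have hne : T.orderEmbOfFin hTc i ≠ T.orderEmbOfFin hTc j := fun h =>
      hij ((T.orderEmbOfFin hTc).injective h)
    constructor
    · intro h
      apply hne
      rw [← hr2 i, ← hr2 j, h]
    · intro h
      apply hne
      rw [← hr2 i, ← hr2 j, h, hfneg]

/-- simultaneous dilation (Dirichlet) -/
theorem dirichlet (n q : ℕ) (hn : 1 < n) (hp : ∀ p : ℕ, p.Prime → p ∣ n → 4 ^ q < p)
    (r : Fin q → ZMod n) :
    ∃ (d : ZMod n) (y : Fin q → ℤ), IsUnit d ∧ (∀ i, (y i : ZMod n) = d * r i) ∧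
      ∀ i, 4 * |y i| < n := by
  classical
  have : NeZero n := ⟨by omega⟩
  have hn0 : 0 < n := by omega
  let F : ℕ → (Fin q → Fin 4) := fun t i =>
    ⟨4 * ((t : ZMod n) * r i).val / n, by
      rw [Nat.div_lt_iff_lt_mul hn0]
      have := ZMod.val_lt ((t : ZMod n) * r i)
      omega⟩
  obtain ⟨a, ha, b, hb, hab, hF⟩ := Finset.exists_ne_map_eq_of_card_lt_of_maps_to
    (s := range (4 ^ q + 1)) (t := (univ : Finset (Fin q → Fin 4))) (f := F) (by
      rw [Finset.card_univ, Finset.card_range]
      simp) (fun _ _ => Finset.mem_univ _)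
  have hcop : ∀ e : ℕ, 0 < e → e ≤ 4 ^ q → IsUnit ((e : ℕ) : ZMod n) := by
    intro e he1 he2
    rw [ZMod.isUnit_iff_coprime]
    by_contra hnc
    obtain ⟨p, hpp, hpe, hpn⟩ := Nat.Prime.not_coprime_iff_dvd.mp hnc
    have h1 := hp p hpp hpn
    have h2 := Nat.le_of_dvd he1 hpe
    omega
  have hclose : ∀ i, |((4 * ((a : ZMod n) * r i).val : ℕ) : ℤ) - (4 * ((b : ZMod n) * r i).val : ℕ)| < n := by
    intro i
    have h1 : (4 * ((a : ZMod n) * r i).val) / n = (4 * ((b : ZMod n) * r i).val) / n := by
      have := congrFun hF i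
      simpa [F, Fin.ext_iff] using this
    set u := 4 * ((a : ZMod n) * r i).val
    set v := 4 * ((b : ZMod n) * r i).val
    have hu := Nat.div_add_mod u n
    have hv := Nat.div_add_mod v n
    have hu2 := Nat.mod_lt u hn0
    have hv2 := Nat.mod_lt v hn0
    rw [h1] at hu
    rw [abs_lt]
    constructor <;> omega
  rw [Finset.mem_range] at ha hb
  refine ⟨(a : ZMod n) - b, fun i => (((a : ZMod n) * r i).val : ℤ) - (((b : ZMod n) * r i).val : ℤ),
    ?_, ?_, ?_⟩
  · rcases lt_or_gt_of_ne hab with h | h
    · have := hcop (b - a) (by omega) (by omega)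
      rw [Nat.cast_sub h.le] at this
      rw [← neg_sub]
      exact this.neg
    · have := hcop (a - b) (by omega) (by omega)
      rwa [Nat.cast_sub h.le] at this
  · intro i
    push_cast
    rw [ZMod.natCast_zmod_val, ZMod.natCast_zmod_val]
    ring
  · intro i
    have h := hclose i
    rw [abs_lt] at h
    have h2 : |(((a : ZMod n) * r i).val : ℤ) - (((b : ZMod n) * r i).val : ℤ)| * 4 < n := by
      rcases abs_cases ((((a : ZMod n) * r i).val : ℤ) - (((b : ZMod n) * r i).val : ℤ)) with h3 | h3
      · rw [h3.1]; push_cast at h; omega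
      · rw [h3.1]; push_cast at h; omega
    show 4 * |(((a : ZMod n) * r i).val : ℤ) - (((b : ZMod n) * r i).val : ℤ)| < n
    omega

/-- every set of `q` positive integers has a dissociated subset of size `k` -/
def P (q k : ℕ) : Prop :=
  ∀ X : Finset ℤ, (∀ x ∈ X, 0 < x) → X.card = q → ∃ Y ⊆ X, Y.card = k ∧ Dissociated Y

theorem transfer (n q k : ℕ) (hk : k ≤ 4) (hP : P q k) (hn : 1 < n)
    (hp : ∀ p : ℕ, p.Prime → p ∣ n → 4 ^ q < p) (A : Finset (ZMod n)) (hA : 2 * q ≤ A.card) :
    k ≤ dimSet A := by
  classical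
  have : NeZero n := ⟨by omega⟩
  obtain ⟨r, hr, hne⟩ := reps n q A hA
  obtain ⟨d, y, hd, hy, hy4⟩ := dirichlet n q hn hp r
  have hy0 : ∀ i, y i ≠ 0 := by
    intro i h
    have h1 := hy i
    rw [h, Int.cast_zero] at h1
    exact (hr i).2 ((IsUnit.mul_right_eq_zero hd).mp h1.symm)
  have hinj : Function.Injective (fun i => |y i|) := by
    intro i j hij
    by_contra hne'
    rcases abs_eq_abs.mp hij with h | h
    · apply (hne i j hne').1
      apply hd.mul_right_injective
      show d * r i = d * r j
      rw [← hy i, ← hy j, h]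
    · apply (hne i j hne').2
      apply hd.mul_right_injective
      show d * r i = d * (- r j)
      rw [mul_neg, ← hy i, ← hy j, h]
      push_cast
      rfl
  obtain ⟨Y, hYX, hYk, hYd⟩ := hP (univ.image (fun i => |y i|)) (by
    intro x hx
    obtain ⟨i, _, rfl⟩ := Finset.mem_image.mp hx
    exact abs_pos.mpr (hy0 i)) (by
    rw [Finset.card_image_of_injective _ hinj, Finset.card_univ, Fintype.card_fin])
  let I : Finset (Fin q) := univ.filter (fun i => |y i| ∈ Y)
  have hIY : I.image (fun i => |y i|) = Y := by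
    ext z
    constructor
    · intro hz
      obtain ⟨i, hi, rfl⟩ := Finset.mem_image.mp hz
      exact (Finset.mem_filter.mp hi).2
    · intro hz
      obtain ⟨i, _, hi⟩ := Finset.mem_image.mp (hYX hz)
      exact Finset.mem_image.mpr ⟨i, Finset.mem_filter.mpr ⟨Finset.mem_univ _, by rw [hi]; exact hz⟩, hi⟩
  have hIk : I.card = k := by
    rw [← hYk, ← hIY, Finset.card_image_of_injective _ hinj]
  have hmain := of_indexed' I r (by
    intro s hs hsum
    have h1 : ((∑ i ∈ I, s i * y i : ℤ) : ZMod n) = 0 := by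
      have : d * ∑ i ∈ I, s i • r i = 0 := by rw [hsum, mul_zero]
      rw [← this]
      push_cast
      rw [Finset.mul_sum]
      refine Finset.sum_congr rfl fun i _ => ?_
      rw [hy i, zsmul_eq_mul]
      ring
    rw [ZMod.intCast_zmod_eq_zero_iff_dvd] at h1
    have h2 : 4 * |∑ i ∈ I, s i * y i| ≤ ∑ i ∈ I, 4 * |y i| := by
      rw [← Finset.mul_sum]
      apply mul_le_mul_of_nonneg_left _ (by norm_num)
      calc |∑ i ∈ I, s i * y i| ≤ ∑ i ∈ I, |s i * y i| := Finset.abs_sum_le_sum_abs _ _
        _ ≤ ∑ i ∈ I, |y i| := by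
          apply Finset.sum_le_sum
          intro i hi
          rw [abs_mul]
          have : |s i| ≤ 1 := by
            rcases hs i hi with h | h | h <;> simp [h]
          nlinarith [abs_nonneg (y i)]
    have h4 : |∑ i ∈ I, s i * y i| < n := by
      rcases I.eq_empty_or_nonempty with h | h
      · rw [h]; simp; omega
      · have h5 : ∑ i ∈ I, 4 * |y i| < ∑ i ∈ I, (n : ℤ) :=
          Finset.sum_lt_sum_of_nonempty h fun i _ => hy4 i
        rw [Finset.sum_const, hIk, nsmul_eq_mul] at h5
        have h6 : (k : ℤ) ≤ 4 := by exact_mod_cast hk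
        have h7 : (k : ℤ) * n ≤ 4 * n := by
          apply mul_le_mul_of_nonneg_right h6 (by positivity)
        linarith
    have h5 : ∑ i ∈ I, s i * y i = 0 := Int.eq_zero_of_abs_lt_dvd h1 h4
    have h6 : ∑ i ∈ I, (s i * (y i).sign) • |y i| = 0 := by
      rw [← h5]
      refine Finset.sum_congr rfl fun i _ => ?_
      rw [smul_eq_mul, mul_assoc, Int.sign_mul_abs]
    have h7 := to_indexed I (fun i => |y i|) (hinj.injOn) (by rw [hIY]; exact hYd)
      (fun i => s i * (y i).sign) (by
        intro i hi
        rcases hs i hi with h | h | h <;>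
          rcases lt_trichotomy (y i) 0 with h' | h' | h'
        · simp [h, Int.sign_eq_neg_one_of_neg h']
        · exact absurd h' (hy0 i)
        · simp [h, Int.sign_eq_one_of_pos h']
        · simp [h]
        · simp [h]
        · simp [h]
        · simp [h, Int.sign_eq_neg_one_of_neg h']
        · exact absurd h' (hy0 i)
        · simp [h, Int.sign_eq_one_of_pos h']) h6
    intro i hi
    have h8 := h7 i hi
    rcases mul_eq_zero.mp h8 with h | h
    · exact h
    · exact absurd (Int.sign_eq_zero_iff_zero.mp h) (hy0 i))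
  apply le_csSup (bdd A)
  refine ⟨_, ?_, hmain.1, by rw [hmain.2, hIk]⟩
  intro x hx
  obtain ⟨i, hi, rfl⟩ := Finset.mem_image.mp hx
  exact (hr i).1

end Pool.Agent.X33.DS
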