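import Pool.Agent.X33.DissC

namespace Pool.Agent.X33.DS

open Finset

theorem quad_diss (a b c d : ℤ) (ha : 0 < a) (hab : a < b) (hbc : b < c) (hcd : c < d)
    (h : ¬ ND a b c d) : Dissociated ({a, b, c, d} : Finset ℤ) := by
  unfold ND at h
  push Not at h
  obtain ⟨h1, h2, h3, h4, h5, h6⟩ := h
  intro ε hε hsum
  have n1 : a ≠ b := by omega
  have n2 : a ≠ c := by omega
  have n3 : a ≠ d := by omega
  have n4 : b ≠ c := by omega
  have n5 : b ≠ d := by omega
  have n6 : c ≠ d := by omega
  rw [Finset.sum_insert (by simp [n1, n2, n3]), Finset.sum_insert (by simp [n4, n5]),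
    Finset.sum_insert (by simp [n6]), Finset.sum_singleton] at hsum
  simp only [smul_eq_mul] at hsum
  have ea := hε a (by simp)
  have eb := hε b (by simp)
  have ec := hε c (by simp)
  have ed := hε d (by simp)
  have key : ε a = 0 ∧ ε b = 0 ∧ ε c = 0 ∧ ε d = 0 := by
    rcases ea with e1 | e1 | e1 <;> rcases eb with e2 | e2 | e2 <;>
    rcases ec with e3 | e3 | e3 <;> rcases ed with e4 | e4 | e4 <;>
    rw [e1, e2, e3, e4] at hsum ⊢ <;> omega
  intro x hx
  simp only [Finset.mem_insert, Finset.mem_singleton] at hx
  rcases hx with rfl | rfl | rfl | rfl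
  · exact key.1
  · exact key.2.1
  · exact key.2.2.1
  · exact key.2.2.2

theorem P74 : P 7 4 := by
  classical
  intro X hX hc
  by_contra hcon
  push Not at hcon
  let o := X.orderEmbOfFin hc
  have ho : ∀ i, o i ∈ X := fun i => Finset.orderEmbOfFin_mem X hc i
  have hlt : ∀ i j : Fin 7, i < j → o i < o j := fun i j h => o.strictMono h
  have hND : ∀ i j k l : Fin 7, i < j → j < k → k < l → ND (o i) (o j) (o k) (o l) := by
    intro i j k l hij hjk hkl
    by_contra hnd
    have h1 := hlt i j hij
    have h2 := hlt j k hjk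
    have h3 := hlt k l hkl
    apply hcon {o i, o j, o k, o l} (by
      intro x hx
      simp only [Finset.mem_insert, Finset.mem_singleton] at hx
      rcases hx with rfl | rfl | rfl | rfl <;> exact ho _) (by
      rw [Finset.card_insert_of_notMem, Finset.card_insert_of_notMem,
        Finset.card_insert_of_notMem, Finset.card_singleton]
      · simp; omega
      · simp; omega
      · simp; omega)
    exact quad_diss _ _ _ _ (hX _ (ho i)) h1 h2 h3 hnd
  exact seven_core (o 0) (o 1) (o 2) (o 3) (o 4) (o 5) (o 6) (hX _ (ho 0))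
    (hlt _ _ (by decide)) (hlt _ _ (by decide)) (hlt _ _ (by decide)) (hlt _ _ (by decide))
    (hlt _ _ (by decide)) (hlt _ _ (by decide))
    (hND _ _ _ _ (by decide) (by decide) (by decide))
    (hND _ _ _ _ (by decide) (by decide) (by decide))
    (hND _ _ _ _ (by decide) (by decide) (by decide))
    (hND _ _ _ _ (by decide) (by decide) (by decide))
    (hND _ _ _ _ (by decide) (by decide) (by decide))
    (hND _ _ _ _ (by decide) (by decide) (by decide))
    (hND _ _ _ _ (by decide) (by decide) (by decide))
    (hND _ _ _ _ (by decide) (by decide) (by decide))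
    (hND _ _ _ _ (by decide) (by decide) (by decide))
    (hND _ _ _ _ (by decide) (by decide) (by decide))
    (hND _ _ _ _ (by decide) (by decide) (by decide))
    (hND _ _ _ _ (by decide) (by decide) (by decide))
    (hND _ _ _ _ (by decide) (by decide) (by decide))
    (hND _ _ _ _ (by decide) (by decide) (by decide))
    (hND _ _ _ _ (by decide) (by decide) (by decide))
    (hND _ _ _ _ (by decide) (by decide) (by decide))
    (hND _ _ _ _ (by decide) (by decide) (by decide))
    (hND _ _ _ _ (by decide) (by decide) (by decide))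

theorem trip_diss (a b c : ℤ) (ha : 0 < a) (hab : a < b) (hbc : b < c)
    (h : a + b ≠ c) : Dissociated ({a, b, c} : Finset ℤ) := by
  intro ε hε hsum
  have n1 : a ≠ b := by omega
  have n2 : a ≠ c := by omega
  have n4 : b ≠ c := by omega
  rw [Finset.sum_insert (by simp [n1, n2]), Finset.sum_insert (by simp [n4]),
    Finset.sum_singleton] at hsum
  simp only [smul_eq_mul] at hsum
  have ea := hε a (by simp)
  have eb := hε b (by simp)
  have ec := hε c (by simp)
  have key : ε a = 0 ∧ ε b = 0 ∧ ε c = 0 := by
    rcases ea with e1 | e1 | e1 <;> rcases eb with e2 | e2 | e2 <;>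
    rcases ec with e3 | e3 | e3 <;>
    rw [e1, e2, e3] at hsum ⊢ <;> omega
  intro x hx
  simp only [Finset.mem_insert, Finset.mem_singleton] at hx
  rcases hx with rfl | rfl | rfl
  · exact key.1
  · exact key.2.1
  · exact key.2.2

theorem P43 : P 4 3 := by
  classical
  intro X hX hc
  by_contra hcon
  push Not at hcon
  let o := X.orderEmbOfFin hc
  have ho : ∀ i, o i ∈ X := fun i => Finset.orderEmbOfFin_mem X hc i
  have hlt : ∀ i j : Fin 4, i < j → o i < o j := fun i j h => o.strictMono h
  have hND : ∀ i j k : Fin 4, i < j → j < k → o i + o j = o k := by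
    intro i j k hij hjk
    by_contra hnd
    have h1 := hlt i j hij
    have h2 := hlt j k hjk
    apply hcon {o i, o j, o k} (by
      intro x hx
      simp only [Finset.mem_insert, Finset.mem_singleton] at hx
      rcases hx with rfl | rfl | rfl <;> exact ho _) (by
      rw [Finset.card_insert_of_notMem, Finset.card_insert_of_notMem, Finset.card_singleton]
      · simp; omega
      · simp; omega)
    exact trip_diss _ _ _ (hX _ (ho i)) h1 h2 hnd
  have e1 := hND 0 1 2 (by decide) (by decide)
  have e2 := hND 0 1 3 (by decide) (by decide)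
  have e3 := hlt 2 3 (by decide)
  omega

theorem P22 : P 2 2 := by
  classical
  intro X hX hc
  obtain ⟨a, b, hab, rfl⟩ := Finset.card_eq_two.mp hc
  refine ⟨{a, b}, subset_rfl, hc, ?_⟩
  intro ε hε hsum
  have ha := hX a (by simp)
  have hb := hX b (by simp)
  rw [Finset.sum_insert (by simp [hab]), Finset.sum_singleton] at hsum
  simp only [smul_eq_mul] at hsum
  have ea := hε a (by simp)
  have eb := hε b (by simp)
  have key : ε a = 0 ∧ ε b = 0 := by
    rcases ea with e1 | e1 | e1 <;> rcases eb with e2 | e2 | e2 <;>
    rw [e1, e2] at hsum ⊢ <;> omega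
  intro x hx
  simp only [Finset.mem_insert, Finset.mem_singleton] at hx
  rcases hx with rfl | rfl
  · exact key.1
  · exact key.2

theorem P11 : P 1 1 := by
  classical
  intro X hX hc
  obtain ⟨a, rfl⟩ := Finset.card_eq_one.mp hc
  refine ⟨{a}, subset_rfl, hc, ?_⟩
  intro ε hε hsum x hx
  have ha := hX a (by simp)
  rw [Finset.sum_singleton] at hsum
  simp only [smul_eq_mul] at hsum
  rw [Finset.mem_singleton] at hx
  subst hx
  rcases mul_eq_zero.mp hsum with h | h
  · exact h
  · omega

/-- every `k+1` element subset of `[1,h]` has two subsets with equal sums -/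
def Q (h k : ℕ) : Prop :=
  ∀ Y ∈ (Icc 1 h).powersetCard (k + 1),
    (Y.powerset.image (fun S => ∑ x ∈ S, x)).card < 2 ^ (k + 1)

instance (h k : ℕ) : Decidable (Q h k) := by unfold Q; infer_instance

theorem Q11 : Q 1 1 := by decide +kernel
theorem Q32 : Q 3 2 := by decide +kernel
theorem Q63 : Q 6 3 := by decide +kernel

end Pool.Agent.X33.DS
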