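import Pool.Agent.X33.DissD

namespace Pool.Agent.X33.DS

open Finset

theorem no_small {G : Type*} [AddCommGroup G] [DecidableEq G] {h k : ℕ} (hQ : Q h k)
    (B : Finset G) (hB : Dissociated B) (hBk : B.card = k + 1) (g : G)
    (hBA : ∀ b ∈ B, ∃ z : ℤ, z.natAbs ≤ h ∧ z • g = b) : False := by
  classical
  choose! z hz1 hz2 using hBA
  have hz0 : ∀ b ∈ B, z b ≠ 0 := by
    intro b hb h0
    have hb0 : b = 0 := by rw [← hz2 b hb, h0, zero_smul]
    have := hB (fun x => if x = b then 1 else 0) (by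
      intro x _
      by_cases hx : x = b <;> simp [hx]) (by
      simp only [ite_smul, one_smul, zero_smul]
      rw [Finset.sum_ite_eq']
      simp [hb0]) b hb
    simp at this
  have hinj : Set.InjOn (fun b => (z b).natAbs) B := by
    intro b hb b' hb' hbb
    by_contra hne
    have hb1 : b ∈ B := hb
    have hb2 : b' ∈ B := hb'
    have h1 : (z b).natAbs = (z b').natAbs := hbb
    rcases Int.natAbs_eq_natAbs_iff.mp h1 with h2 | h2
    · apply hne
      rw [← hz2 b hb1, ← hz2 b' hb2, h2]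
    · have h3 : b = -b' := by
        rw [← hz2 b hb1, ← hz2 b' hb2, h2, neg_smul]
      have := hB (fun x => (if x = b then 1 else 0) + (if x = b' then 1 else 0)) (by
        intro x _
        by_cases hx : x = b
        · have : x ≠ b' := by rw [hx]; exact hne
          simp [hx, hne]
        · by_cases hx' : x = b'
          · have h9 : b' ≠ b := fun h => hne h.symm
            simp [hx', h9]
          · simp [hx, hx']) (by
        simp only [add_smul, ite_smul, one_smul, zero_smul]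
        rw [Finset.sum_add_distrib, Finset.sum_ite_eq', Finset.sum_ite_eq']
        rw [if_pos hb1, if_pos hb2, h3]
        simp) b hb1
      simp [hne] at this
  set Y := B.image (fun b => (z b).natAbs) with hY
  have hYc : Y.card = k + 1 := by rw [hY, Finset.card_image_of_injOn hinj, hBk]
  have hYm : Y ∈ (Icc 1 h).powersetCard (k + 1) := by
    rw [Finset.mem_powersetCard]
    refine ⟨?_, hYc⟩
    intro y hy
    obtain ⟨b, hb, rfl⟩ := Finset.mem_image.mp hy
    rw [Finset.mem_Icc]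
    exact ⟨Int.natAbs_pos.mpr (hz0 b hb), hz1 b hb⟩
  have hlt := hQ Y hYm
  obtain ⟨S, hS, T, hT, hST, hsumeq⟩ := Finset.exists_ne_map_eq_of_card_lt_of_maps_to
    (s := Y.powerset) (t := Y.powerset.image (fun S => ∑ x ∈ S, x)) (f := fun S => ∑ x ∈ S, x)
    (by rw [Finset.card_powerset, hYc]; exact hlt)
    (fun S hS => Finset.mem_image_of_mem _ hS)
  have hS' : S ⊆ Y := Finset.mem_powerset.mp hS
  have hT' : T ⊆ Y := Finset.mem_powerset.mp hT
  -- relation on integers indexed by `B`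
  have hrel : ∀ U : Finset ℕ, U ⊆ Y →
      ∑ b ∈ B, (if (z b).natAbs ∈ U then (1:ℤ) else 0) * ((z b).natAbs : ℤ)
        = ∑ x ∈ U, (x : ℤ) := by
    intro U hU
    have h1 : ∑ b ∈ B, (if (z b).natAbs ∈ U then (1:ℤ) else 0) * ((z b).natAbs : ℤ)
        = ∑ y ∈ Y, (if y ∈ U then (1:ℤ) else 0) * (y : ℤ) := by
      rw [hY, Finset.sum_image hinj]
    rw [h1]
    simp only [ite_mul, one_mul, zero_mul]
    rw [← Finset.sum_filter, Finset.filter_mem_eq_inter, Finset.inter_eq_right.mpr hU]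
  have key := hB (fun b => ((if (z b).natAbs ∈ S then (1:ℤ) else 0)
      - (if (z b).natAbs ∈ T then (1:ℤ) else 0)) * (z b).sign) (by
    intro b hb
    have hsg : (z b).sign = 1 ∨ (z b).sign = -1 := by
      rcases lt_trichotomy (z b) 0 with h' | h' | h'
      · exact Or.inr (Int.sign_eq_neg_one_of_neg h')
      · exact absurd h' (hz0 b hb)
      · exact Or.inl (Int.sign_eq_one_of_pos h')
    by_cases h1 : (z b).natAbs ∈ S <;> by_cases h2 : (z b).natAbs ∈ T <;>
      rcases hsg with h3 | h3 <;> simp [h1, h2, h3]) (by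
    have h5 : ∑ b ∈ B, (((if (z b).natAbs ∈ S then (1:ℤ) else 0)
      - (if (z b).natAbs ∈ T then (1:ℤ) else 0)) * (z b).sign) • b
      = (∑ b ∈ B, (((if (z b).natAbs ∈ S then (1:ℤ) else 0)
      - (if (z b).natAbs ∈ T then (1:ℤ) else 0)) * ((z b).natAbs : ℤ))) • g := by
      rw [Finset.sum_smul]
      refine Finset.sum_congr rfl fun b hb => ?_
      conv_lhs => rw [← hz2 b hb]
      rw [smul_smul]
      congr 1
      have hzz : (z b).sign * z b = ((z b).natAbs : ℤ) := by
        rw [Int.sign_mul_self_eq_abs, Int.natCast_natAbs]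
      rw [hz2 b hb, mul_assoc, hzz]
    rw [h5]
    have h6 : ∑ b ∈ B, (((if (z b).natAbs ∈ S then (1:ℤ) else 0)
      - (if (z b).natAbs ∈ T then (1:ℤ) else 0)) * ((z b).natAbs : ℤ)) = 0 := by
      simp only [sub_mul]
      rw [Finset.sum_sub_distrib, hrel S hS', hrel T hT', sub_eq_zero]
      have h9 : (∑ x ∈ S, x) = ∑ x ∈ T, x := hsumeq
      rw [← Nat.cast_sum, ← Nat.cast_sum, h9]
    rw [h6, zero_smul])
  apply hST
  have hiff : ∀ y ∈ Y, (y ∈ S ↔ y ∈ T) := by
    intro y hy
    obtain ⟨b, hb, rfl⟩ := Finset.mem_image.mp hy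
    have h7 := key b hb
    have hsg : (z b).sign ≠ 0 := by
      intro h
      exact hz0 b hb (Int.sign_eq_zero_iff_zero.mp h)
    have h8 := (mul_eq_zero.mp h7).resolve_right hsg
    by_cases h1 : (z b).natAbs ∈ S <;> by_cases h2 : (z b).natAbs ∈ T <;>
      simp [h1, h2] at h8 ⊢
  ext y
  constructor
  · intro hy
    exact (hiff y (hS' hy)).mp hy
  · intro hy
    exact (hiff y (hT' hy)).mpr hy

/-- the interval `{-h,…,h}` in `ZMod n` -/
noncomputable def iv (n h : ℕ) : Finset (ZMod n) := (Icc (-(h:ℤ)) h).image (fun z : ℤ => (z : ZMod n))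

theorem iv_card (n h : ℕ) (hn : 2 * h < n) : (iv n h).card = 2 * h + 1 := by
  unfold iv
  rw [Finset.card_image_of_injOn]
  · rw [Int.card_Icc]; omega
  · intro a ha b hb hab
    have ha' : a ∈ Icc (-(h:ℤ)) h := ha
    have hb' : b ∈ Icc (-(h:ℤ)) h := hb
    rw [Finset.mem_Icc] at ha' hb'
    have h1 : ((a - b : ℤ) : ZMod n) = 0 := by
      push_cast
      have : (a : ZMod n) = b := hab
      rw [this, sub_self]
    rw [ZMod.intCast_zmod_eq_zero_iff_dvd] at h1
    have h2 := Int.eq_zero_of_abs_lt_dvd h1 (by rw [abs_lt]; constructor <;> omega)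
    omega

theorem dim_iv (n h k : ℕ) (hQ : Q h k) (A : Finset (ZMod n)) (hA : A ⊆ iv n h) :
    dimSet A ≤ k := by
  classical
  apply csSup_le (⟨0, ∅, by simp, empty_diss, by simp⟩ :
    Set.Nonempty {d : ℕ | ∃ B : Finset (ZMod n), B ⊆ A ∧ Dissociated B ∧ B.card = d})
  rintro d ⟨B, hBA, hB, rfl⟩
  by_contra hcon
  obtain ⟨B', hB', hc⟩ := Finset.exists_subset_card_eq (show k + 1 ≤ B.card by omega)
  refine no_small hQ B' (hB.subset hB') hc 1 ?_
  intro b hb
  have := hA (hBA (hB' hb))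
  unfold iv at this
  obtain ⟨z, hz, hzb⟩ := Finset.mem_image.mp this
  rw [Finset.mem_Icc] at hz
  refine ⟨z, by omega, ?_⟩
  rw [zsmul_eq_mul, mul_one]
  exact hzb

theorem small_value (n q k h m : ℕ) (hn : 1 < n)
    (hp : ∀ p : ℕ, p.Prime → p ∣ n → 4 ^ 7 < p) (hq : q ≤ 7) (hk : k ≤ 4) (hh : h ≤ 100)
    (hP : P q k) (hQ : Q h k) (hm1 : 2 * q ≤ m) (hm2 : m ≤ 2 * h + 1) :
    dimGroup (ZMod n) m = k := by
  classical
  have hbig : 4 ^ 7 < n := by
    obtain ⟨p, hpp, hpn⟩ := Nat.exists_prime_and_dvd (show n ≠ 1 by omega)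
    have h1 := hp p hpp hpn
    have h2 := Nat.le_of_dvd (by omega) hpn
    omega
  have hp' : ∀ p : ℕ, p.Prime → p ∣ n → 4 ^ q < p := by
    intro p hpp hpn
    have h1 := hp p hpp hpn
    have h2 : 4 ^ q ≤ 4 ^ 7 := Nat.pow_le_pow_right (by norm_num) hq
    omega
  have hlow : ∀ A : Finset (ZMod n), A.card = m → k ≤ dimSet A := fun A hA =>
    transfer n q k hk hP hn hp' A (by omega)
  obtain ⟨A, hA1, hA2⟩ := Finset.exists_subset_card_eq (show m ≤ (iv n h).card by
    rw [iv_card n h (by norm_num at hbig; omega)]; exact hm2)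
  have hup := dim_iv n h k hQ A hA1
  have hAk : dimSet A = k := le_antisymm hup (hlow A hA2)
  unfold dimGroup
  apply le_antisymm
  · exact Nat.sInf_le ⟨A, hA2, hAk⟩
  · apply le_csInf (⟨k, A, hA2, hAk⟩ :
      Set.Nonempty {d : ℕ | ∃ A : Finset (ZMod n), A.card = m ∧ dimSet A = d})
    rintro d ⟨A', hA', rfl⟩
    exact hlow A' hA'

end Pool.Agent.X33.DS
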