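import Pool.Agent.X33.DissE

namespace Pool.Agent.X33.DS

open Finset

/-- representatives of sign classes in an abelian group -/
theorem repsG {G : Type*} [AddCommGroup G] (q : ℕ) (A : Finset G) (hA : 2 * q ≤ A.card) :
    ∃ r : Fin q → G, (∀ i, r i ∈ A ∧ r i ≠ 0) ∧
      ∀ i j, i ≠ j → r i ≠ r j ∧ r i ≠ - r j := by
  classical
  let f : G → Finset G := fun a => {a, -a}
  have hf : ∀ a b, f a = f b → a = b ∨ a = -b := by
    intro a b hab
    have h1 : a ∈ f b := by rw [← hab]; simp [f]
    simpa [f] using h1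
  have hfneg : ∀ a, f (-a) = f a := by
    intro a
    simp [f, Finset.pair_comm]
  let s := A.erase 0
  have hs : 2 * q ≤ s.card + 1 := by
    have := Finset.pred_card_le_card_erase (s := A) (a := (0 : G))
    simp only [s]
    omega
  have hfib : ∀ c ∈ s.image f, (s.filter (fun x => f x = c)).card ≤ 2 := by
    intro c hc
    obtain ⟨a, _, rfl⟩ := Finset.mem_image.mp hc
    calc (s.filter (fun x => f x = f a)).card ≤ ({a, -a} : Finset G).card := by
          apply Finset.card_le_card
          intro x hx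
          rw [Finset.mem_filter] at hx
          rcases hf x a hx.2 with h | h <;> simp [h]
      _ ≤ 2 := Finset.card_le_two
  have hcard := Finset.card_le_mul_card_image s 2 hfib
  have hq : q ≤ (s.image f).card := by omega
  obtain ⟨T, hT, hTc⟩ := Finset.exists_subset_card_eq hq
  let e : Fin q ≃ T := (finCongr hTc.symm).trans T.equivFin.symm
  have hchoose : ∀ i : Fin q, ∃ a ∈ s, f a = (e i : Finset G) := by
    intro i
    obtain ⟨a, ha, hfa⟩ := Finset.mem_image.mp (hT (e i).2)
    exact ⟨a, ha, hfa⟩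
  choose r hr1 hr2 using hchoose
  refine ⟨r, ?_, ?_⟩
  · intro i
    have := hr1 i
    simp only [s, Finset.mem_erase] at this
    exact ⟨this.2, this.1⟩
  · intro i j hij
    have hne : (e i : Finset G) ≠ e j := fun h => hij (e.injective (Subtype.ext h))
    constructor
    · intro h
      apply hne
      rw [← hr2 i, ← hr2 j, h]
    · intro h
      apply hne
      rw [← hr2 i, ← hr2 j, h, hfneg]

/-- the characters killing `x` -/
noncomputable def KK {G : Type*} [AddCommGroup G] (x : G) : AddSubgroup (AddChar G ℂ) where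
  carrier := {ψ | ψ x = 1}
  add_mem' := by
    intro a b ha hb
    have ha' : a x = 1 := ha
    have hb' : b x = 1 := hb
    show (a + b) x = 1
    rw [AddChar.add_apply, ha', hb', mul_one]
  zero_mem' := by
    show (0 : AddChar G ℂ) x = 1
    simp
  neg_mem' := by
    intro a ha
    have ha' : a x = 1 := ha
    show (-a) x = 1
    rw [AddChar.neg_apply, AddChar.map_neg_eq_inv, ha', inv_one]

theorem exists_char {G : Type*} [AddCommGroup G] [Finite G] (P : ℕ)
    (hp : ∀ p : ℕ, p.Prime → p ∣ Nat.card G → P < p) (S : Finset G) (h0 : ∀ x ∈ S, x ≠ 0)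
    (hS : S.card ≤ P) : ∃ ψ : AddChar G ℂ, ∀ x ∈ S, ψ x ≠ 1 := by
  classical
  have : Fintype G := Fintype.ofFinite G
  have : Finite (AddChar G ℂ) := inferInstance
  have : Fintype (AddChar G ℂ) := Fintype.ofFinite _
  have hcard : Nat.card (AddChar G ℂ) = Nat.card G := by
    rw [Nat.card_eq_fintype_card, Nat.card_eq_fintype_card]
    convert AddChar.card_eq (α := G)
  by_contra hcon
  push Not at hcon
  have hK : ∀ x ∈ S, (P + 1) * Nat.card (KK x) ≤ Nat.card (AddChar G ℂ) := by
    intro x hx
    obtain ⟨ψ, hψ⟩ := AddChar.exists_apply_ne_zero.mpr (h0 x hx)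
    have hne : (KK x).index ≠ 1 := by
      rw [Ne, AddSubgroup.index_eq_one]
      intro h
      apply hψ
      have : ψ ∈ KK x := by rw [h]; trivial
      exact this
    have hmul := (KK x).card_mul_index
    obtain ⟨p, hpp, hpd⟩ := Nat.exists_prime_and_dvd hne
    have h1 : p ∣ Nat.card G := by
      rw [← hcard, ← hmul]
      exact dvd_mul_of_dvd_right hpd _
    have h2 := hp p hpp h1
    have h3 : 0 < (KK x).index := by
      rcases Nat.eq_zero_or_pos (KK x).index with h | h
      · rw [h, mul_zero] at hmul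
        have : 0 < Nat.card (AddChar G ℂ) := Nat.card_pos
        omega
      · exact h
    have h4 := Nat.le_of_dvd h3 hpd
    rw [← hmul, mul_comm]
    exact Nat.mul_le_mul_left _ (by omega)
  have hcov : (univ : Finset (AddChar G ℂ)) ⊆ S.biUnion (fun x => univ.filter (fun ψ => ψ x = 1)) := by
    intro ψ _
    obtain ⟨x, hx, h⟩ := hcon ψ
    exact Finset.mem_biUnion.mpr ⟨x, hx, Finset.mem_filter.mpr ⟨Finset.mem_univ _, h⟩⟩
  have h5 := (Finset.card_le_card hcov).trans Finset.card_biUnion_le
  have h6 : ∀ x ∈ S, (univ.filter (fun ψ : AddChar G ℂ => ψ x = 1)).card = Nat.card (KK x) := by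
    intro x _
    rw [← Fintype.card_subtype, ← Nat.card_eq_fintype_card]
    rfl
  rw [Finset.sum_congr rfl h6, Finset.card_univ, ← Nat.card_eq_fintype_card] at h5
  have h7 : (P + 1) * ∑ x ∈ S, Nat.card (KK x) ≤ S.card * Nat.card (AddChar G ℂ) := by
    rw [Finset.mul_sum]
    have := Finset.sum_le_sum hK
    rwa [Finset.sum_const, smul_eq_mul] at this
  have h8 : 0 < Nat.card (AddChar G ℂ) := Nat.card_pos
  nlinarith

/-- dilation of a character: integers with the same relations -/
theorem dilate {G : Type*} [AddCommGroup G] [Finite G] (q : ℕ) (hq : q ≤ 7)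
    (hG : 1 < Nat.card G)
    (hp : ∀ p : ℕ, p.Prime → p ∣ Nat.card G → 4 ^ 7 < p) (r : Fin q → G)
    (hr0 : ∀ i, r i ≠ 0) (hr : ∀ i j, i ≠ j → r i ≠ r j ∧ r i ≠ - r j) :
    ∃ (n : ℕ) (y : Fin q → ℤ), 1 < n ∧ (∀ i, 4 * |y i| < n) ∧ (∀ i, y i ≠ 0) ∧
      (∀ i j, i ≠ j → y i ≠ y j ∧ y i ≠ - y j) ∧
      ∀ s : Fin q → ℤ, ∑ i, s i • r i = 0 → (n : ℤ) ∣ ∑ i, s i * y i := by
  classical
  let S : Finset G := univ.image r ∪ ((univ ×ˢ univ).filter (fun p : Fin q × Fin q => p.1 ≠ p.2)).image
    (fun p => r p.1 - r p.2) ∪ ((univ ×ˢ univ).filter (fun p : Fin q × Fin q => p.1 ≠ p.2)).image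
    (fun p => r p.1 + r p.2)
  have hS0 : ∀ x ∈ S, x ≠ 0 := by
    intro x hx
    simp only [S, Finset.mem_union, Finset.mem_image, Finset.mem_filter] at hx
    rcases hx with (⟨i, _, rfl⟩ | ⟨p, ⟨_, hpne⟩, rfl⟩) | ⟨p, ⟨_, hpne⟩, rfl⟩
    · exact hr0 i
    · exact sub_ne_zero.mpr (hr _ _ hpne).1
    · intro h
      exact (hr _ _ hpne).2 (eq_neg_of_add_eq_zero_left h)
  have hScard : S.card ≤ 4 ^ 7 := by
    have e0 : ((univ ×ˢ univ).filter (fun p : Fin q × Fin q => p.1 ≠ p.2)).card ≤ q * q := by
      refine (Finset.card_filter_le _ _).trans ?_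
      rw [Finset.card_product, Finset.card_univ, Fintype.card_fin]
    have e1 : S.card ≤ q + q * q + q * q := by
      refine (Finset.card_union_le _ _).trans ?_
      refine Nat.add_le_add ((Finset.card_union_le _ _).trans (Nat.add_le_add ?_ ?_)) ?_
      · refine Finset.card_image_le.trans ?_
        rw [Finset.card_univ, Fintype.card_fin]
      · exact Finset.card_image_le.trans e0
      · exact Finset.card_image_le.trans e0
    have e2 : q * q ≤ 7 * 7 := Nat.mul_le_mul hq hq
    norm_num
    omega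
  obtain ⟨ψ, hψ⟩ := exists_char (4 ^ 7) hp S hS0 hScard
  set n := Nat.card G with hn
  have hn0 : n ≠ 0 := by omega
  have hprim := Complex.isPrimitiveRoot_exp n hn0
  set ζ := Complex.exp (2 * Real.pi * Complex.I / n) with hζ
  have hroot : ∀ x : G, ∃ k : ℕ, k < n ∧ ζ ^ k = ψ x := by
    intro x
    have hx : (ψ x) ^ n = 1 := by
      rw [← AddChar.map_nsmul_eq_pow]
      have : n • x = 0 := by
        rw [hn]
        exact card_nsmul_eq_zero'
      rw [this, AddChar.map_zero_eq_one]
    have : NeZero n := ⟨hn0⟩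
    obtain ⟨k, hk, hk2⟩ := hprim.eq_pow_of_pow_eq_one hx
    exact ⟨k, hk, hk2⟩
  choose κ hκ1 hκ2 using hroot
  obtain ⟨d, y, hd, hy, hy4⟩ := dirichlet n q hG (by
    intro p hpp hpn
    have h1 := hp p hpp hpn
    have h2 : 4 ^ q ≤ 4 ^ 7 := Nat.pow_le_pow_right (by norm_num) hq
    omega) (fun i => ((κ (r i) : ℕ) : ZMod n))
  have hchar : ∀ s : Fin q → ℤ, ψ (∑ i, s i • r i) = 1 ↔ (n : ℤ) ∣ ∑ i, s i * y i := by
    intro s
    have h1 : ψ (∑ i, s i • r i) = ζ ^ (∑ i, s i * (κ (r i) : ℤ)) := by
      have hζ0 : ζ ≠ 0 := Complex.exp_ne_zero _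
      have h2 : ∀ i, ψ (s i • r i) = ζ ^ (s i * (κ (r i) : ℤ)) := by
        intro i
        rw [AddChar.map_zsmul_eq_zpow, ← hκ2 (r i), mul_comm, zpow_mul, zpow_natCast]
      induction (univ : Finset (Fin q)) using Finset.induction_on with
      | empty => simp
      | insert a t hat ih =>
        rw [Finset.sum_insert hat, Finset.sum_insert hat, zpow_add₀ hζ0, AddChar.map_add_eq_mul,
          ih, h2]
    rw [h1, hprim.zpow_eq_one_iff_dvd]
    rw [← ZMod.intCast_zmod_eq_zero_iff_dvd, ← ZMod.intCast_zmod_eq_zero_iff_dvd]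
    have h3 : ((∑ i, s i * y i : ℤ) : ZMod n) = d * ((∑ i, s i * (κ (r i) : ℤ) : ℤ) : ZMod n) := by
      push_cast
      rw [Finset.mul_sum]
      refine Finset.sum_congr rfl fun i _ => ?_
      rw [hy i]
      ring
    rw [h3, IsUnit.mul_right_eq_zero hd]
  have hsingle : ∀ i : Fin q, ∑ l, (if l = i then (1:ℤ) else 0) • r l = r i := by
    intro i
    simp [Finset.sum_ite_eq']
  have hsingle' : ∀ i : Fin q, ∑ l, (if l = i then (1:ℤ) else 0) * y l = y i := by
    intro i
    simp [Finset.sum_ite_eq']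
  refine ⟨n, y, hG, hy4, ?_, ?_, ?_⟩
  · intro i h
    apply hψ (r i) (by simp [S])
    have := (hchar (fun l => if l = i then 1 else 0)).mpr (by rw [hsingle', h]; exact dvd_zero _)
    rwa [hsingle] at this
  · intro i j hij
    constructor
    · intro h
      apply hψ (r i - r j) (by
        simp only [S, Finset.mem_union, Finset.mem_image, Finset.mem_filter]
        exact Or.inl (Or.inr ⟨(i, j), ⟨by simp, hij⟩, rfl⟩))
      have := (hchar (fun l => (if l = i then 1 else 0) - (if l = j then 1 else 0))).mpr (by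
        simp only [sub_mul]
        rw [Finset.sum_sub_distrib, hsingle', hsingle', h, sub_self]
        exact dvd_zero _)
      simp only [sub_smul] at this
      rwa [Finset.sum_sub_distrib, hsingle, hsingle] at this
    · intro h
      apply hψ (r i + r j) (by
        simp only [S, Finset.mem_union, Finset.mem_image, Finset.mem_filter]
        exact Or.inr ⟨(i, j), ⟨by simp, hij⟩, rfl⟩)
      have := (hchar (fun l => (if l = i then 1 else 0) + (if l = j then 1 else 0))).mpr (by
        simp only [add_mul]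
        rw [Finset.sum_add_distrib, hsingle', hsingle', h]
        simp)
      simp only [add_smul] at this
      rwa [Finset.sum_add_distrib, hsingle, hsingle] at this
  · intro s hs
    rw [← hchar, hs, AddChar.map_zero_eq_one]

end Pool.Agent.X33.DS
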