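import Pool.Agent.X33.DissG

namespace Pool.Agent.X33.DS

open Finset

theorem transferG {G : Type*} [AddCommGroup G] [Finite G] (q k : ℕ) (hq : q ≤ 7) (hk : k ≤ 4)
    (hP : P q k) (hG : 1 < Nat.card G)
    (hp : ∀ p : ℕ, p.Prime → p ∣ Nat.card G → 4 ^ 7 < p) (A : Finset G) (hA : 2 * q ≤ A.card) :
    k ≤ dimSet A := by
  classical
  obtain ⟨r, hr, hne⟩ := repsG q A hA
  obtain ⟨n, y, hn, hy4, hy0, hyne, hyd⟩ := dilate q hq hG hp r (fun i => (hr i).2) hne
  have hinj : Function.Injective (fun i => |y i|) := by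
    intro i j hij
    by_contra hne'
    rcases abs_eq_abs.mp hij with h | h
    · exact (hyne i j hne').1 h
    · exact (hyne i j hne').2 h
  obtain ⟨Y, hYX, hYk, hYd⟩ := hP (univ.image (fun i => |y i|)) (by
    intro x hx
    obtain ⟨i, _, rfl⟩ := Finset.mem_image.mp hx
    exact abs_pos.mpr (hy0 i)) (by
    rw [Finset.card_image_of_injective _ hinj, Finset.card_univ, Fintype.card_fin])
  let I : Finset (Fin q) := univ.filter (fun i => |y i| ∈ Y)
  have hIY : I.image (fun i => |y i|) = Y := by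
    ext z
    constructor
    · intro hz
      obtain ⟨i, hi, rfl⟩ := Finset.mem_image.mp hz
      exact (Finset.mem_filter.mp hi).2
    · intro hz
      obtain ⟨i, _, hi⟩ := Finset.mem_image.mp (hYX hz)
      exact Finset.mem_image.mpr ⟨i, Finset.mem_filter.mpr ⟨Finset.mem_univ _, by rw [hi]; exact hz⟩, hi⟩
  have hIk : I.card = k := by
    rw [← hYk, ← hIY, Finset.card_image_of_injective _ hinj]
  have hmain := of_indexed' I r (by
    intro s hs hsum
    have h1 : (n : ℤ) ∣ ∑ i ∈ I, s i * y i := by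
      have h := hyd (fun i => if i ∈ I then s i else 0) (by
        simp only [ite_smul, zero_smul]
        rw [← Finset.sum_filter, Finset.filter_mem_eq_inter, Finset.univ_inter]
        exact hsum)
      simp only [ite_mul, zero_mul] at h
      rwa [← Finset.sum_filter, Finset.filter_mem_eq_inter, Finset.univ_inter] at h
    have h2 : 4 * |∑ i ∈ I, s i * y i| ≤ ∑ i ∈ I, 4 * |y i| := by
      rw [← Finset.mul_sum]
      apply mul_le_mul_of_nonneg_left _ (by norm_num)
      calc |∑ i ∈ I, s i * y i| ≤ ∑ i ∈ I, |s i * y i| := Finset.abs_sum_le_sum_abs _ _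
        _ ≤ ∑ i ∈ I, |y i| := by
          apply Finset.sum_le_sum
          intro i hi
          rw [abs_mul]
          have : |s i| ≤ 1 := by
            rcases hs i hi with h | h | h <;> simp [h]
          nlinarith [abs_nonneg (y i)]
    have h4 : |∑ i ∈ I, s i * y i| < n := by
      rcases I.eq_empty_or_nonempty with h | h
      · rw [h]; simp; omega
      · have h5 : ∑ i ∈ I, 4 * |y i| < ∑ i ∈ I, (n : ℤ) :=
          Finset.sum_lt_sum_of_nonempty h fun i _ => hy4 i
        rw [Finset.sum_const, hIk, nsmul_eq_mul] at h5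
        have h6 : (k : ℤ) ≤ 4 := by exact_mod_cast hk
        have h7 : (k : ℤ) * n ≤ 4 * n := by
          apply mul_le_mul_of_nonneg_right h6 (by positivity)
        linarith
    have h5 : ∑ i ∈ I, s i * y i = 0 := Int.eq_zero_of_abs_lt_dvd h1 h4
    have h6 : ∑ i ∈ I, (s i * (y i).sign) • |y i| = 0 := by
      rw [← h5]
      refine Finset.sum_congr rfl fun i _ => ?_
      rw [smul_eq_mul, mul_assoc, Int.sign_mul_abs]
    have h7 := to_indexed I (fun i => |y i|) (hinj.injOn) (by rw [hIY]; exact hYd)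
      (fun i => s i * (y i).sign) (by
        intro i hi
        rcases hs i hi with h | h | h <;>
          rcases lt_trichotomy (y i) 0 with h' | h' | h'
        · simp [h, Int.sign_eq_neg_one_of_neg h']
        · exact absurd h' (hy0 i)
        · simp [h, Int.sign_eq_one_of_pos h']
        · simp [h]
        · simp [h]
        · simp [h]
        · simp [h, Int.sign_eq_neg_one_of_neg h']
        · exact absurd h' (hy0 i)
        · simp [h, Int.sign_eq_one_of_pos h']) h6
    intro i hi
    have h8 := h7 i hi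
    rcases mul_eq_zero.mp h8 with h | h
    · exact h
    · exact absurd (Int.sign_eq_zero_iff_zero.mp h) (hy0 i))
  apply le_csSup (bdd A)
  refine ⟨_, ?_, hmain.1, by rw [hmain.2, hIk]⟩
  intro x hx
  obtain ⟨i, hi, rfl⟩ := Finset.mem_image.mp hx
  exact (hr i).1

open Classical in
/-- the interval `{-h g, …, h g}` -/
noncomputable def ivG {G : Type*} [AddCommGroup G] (g : G) (h : ℕ) : Finset G :=
  (Icc (-(h:ℤ)) h).image (fun z : ℤ => z • g)

theorem ivG_card {G : Type*} [AddCommGroup G] (g : G) (h : ℕ) (hg : 2 * h < addOrderOf g) :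
    (ivG g h).card = 2 * h + 1 := by
  classical
  unfold ivG
  rw [Finset.card_image_of_injOn]
  · rw [Int.card_Icc]; omega
  · intro a ha b hb hab
    have ha' : a ∈ Icc (-(h:ℤ)) h := ha
    have hb' : b ∈ Icc (-(h:ℤ)) h := hb
    rw [Finset.mem_Icc] at ha' hb'
    have h1 : (a - b) • g = 0 := by
      rw [sub_smul, sub_eq_zero]
      exact hab
    rw [← addOrderOf_dvd_iff_zsmul_eq_zero] at h1
    have h2 := Int.eq_zero_of_abs_lt_dvd h1 (by rw [abs_lt]; constructor <;> omega)
    omega

theorem dim_ivG {G : Type*} [AddCommGroup G] (g : G) (h k : ℕ) (hQ : Q h k) (A : Finset G)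
    (hA : A ⊆ ivG g h) : dimSet A ≤ k := by
  classical
  apply csSup_le (⟨0, ∅, by simp, empty_diss, by simp⟩ :
    Set.Nonempty {d : ℕ | ∃ B : Finset G, B ⊆ A ∧ Dissociated B ∧ B.card = d})
  rintro d ⟨B, hBA, hB, rfl⟩
  by_contra hcon
  obtain ⟨B', hB', hc⟩ := Finset.exists_subset_card_eq (show k + 1 ≤ B.card by omega)
  refine no_small hQ B' (hB.subset hB') hc g ?_
  intro b hb
  have := hA (hBA (hB' hb))
  unfold ivG at this
  obtain ⟨z, hz, hzb⟩ := Finset.mem_image.mp this
  rw [Finset.mem_Icc] at hz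
  exact ⟨z, by omega, hzb⟩

theorem small_valueG {G : Type*} [AddCommGroup G] [Finite G] (q k h m : ℕ) (hG : 1 < Nat.card G)
    (hp : ∀ p : ℕ, p.Prime → p ∣ Nat.card G → 4 ^ 7 < p) (hq : q ≤ 7) (hk : k ≤ 4) (hh : h ≤ 100)
    (hP : P q k) (hQ : Q h k) (hm1 : 2 * q ≤ m) (hm2 : m ≤ 2 * h + 1) :
    dimGroup G m = k := by
  classical
  have hnt : Nontrivial G := (Finite.one_lt_card_iff_nontrivial).mp hG
  obtain ⟨g, hg⟩ := exists_ne (0 : G)
  have hord : 4 ^ 7 < addOrderOf g := by
    have h1 : addOrderOf g ≠ 1 := by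
      rw [Ne, AddMonoid.addOrderOf_eq_one_iff]
      exact hg
    obtain ⟨p, hpp, hpd⟩ := Nat.exists_prime_and_dvd h1
    have h2 := hp p hpp (hpd.trans (addOrderOf_dvd_natCard g))
    have h3 := Nat.le_of_dvd (addOrderOf_pos g) hpd
    omega
  have hlow : ∀ A : Finset G, A.card = m → k ≤ dimSet A := fun A hA =>
    transferG q k hq hk hP hG hp A (by omega)
  obtain ⟨A, hA1, hA2⟩ := Finset.exists_subset_card_eq (show m ≤ (ivG g h).card by
    rw [ivG_card g h (by norm_num at hord; omega)]; exact hm2)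
  have hup := dim_ivG g h k hQ A hA1
  have hAk : dimSet A = k := le_antisymm hup (hlow A hA2)
  unfold dimGroup
  apply le_antisymm
  · exact Nat.sInf_le ⟨A, hA2, hAk⟩
  · apply le_csInf (⟨k, A, hA2, hAk⟩ :
      Set.Nonempty {d : ℕ | ∃ A : Finset G, A.card = m ∧ dimSet A = d})
    rintro d ⟨A', hA', rfl⟩
    exact hlow A' hA'

end Pool.Agent.X33.DS
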