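import Pool.Agent.X33.DissH

namespace Pool.Agent.X33.DS

open Finset

/-- simultaneous dilation (Dirichlet) with `N` boxes -/
theorem dirichletN (n q N : ℕ) (hN : 0 < N) (hn : 1 < n)
    (hp : ∀ p : ℕ, p.Prime → p ∣ n → N ^ q < p) (r : Fin q → ZMod n) :
    ∃ (d : ZMod n) (y : Fin q → ℤ), IsUnit d ∧ (∀ i, (y i : ZMod n) = d * r i) ∧
      ∀ i, (N : ℤ) * |y i| < n := by
  classical
  have : NeZero n := ⟨by omega⟩
  have hn0 : 0 < n := by omega
  let F : ℕ → (Fin q → Fin N) := fun t i =>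
    ⟨N * ((t : ZMod n) * r i).val / n, by
      rw [Nat.div_lt_iff_lt_mul hn0]
      have := ZMod.val_lt ((t : ZMod n) * r i)
      exact Nat.mul_lt_mul_of_pos_left this hN⟩
  obtain ⟨a, ha, b, hb, hab, hF⟩ := Finset.exists_ne_map_eq_of_card_lt_of_maps_to
    (s := range (N ^ q + 1)) (t := (univ : Finset (Fin q → Fin N))) (f := F) (by
      rw [Finset.card_univ, Finset.card_range]
      simp) (fun _ _ => Finset.mem_univ _)
  have hcop : ∀ e : ℕ, 0 < e → e ≤ N ^ q → IsUnit ((e : ℕ) : ZMod n) := by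
    intro e he1 he2
    rw [ZMod.isUnit_iff_coprime]
    by_contra hnc
    obtain ⟨p, hpp, hpe, hpn⟩ := Nat.Prime.not_coprime_iff_dvd.mp hnc
    have h1 := hp p hpp hpn
    have h2 := Nat.le_of_dvd he1 hpe
    omega
  have hclose : ∀ i, |((N * ((a : ZMod n) * r i).val : ℕ) : ℤ) - (N * ((b : ZMod n) * r i).val : ℕ)| < n := by
    intro i
    have h1 : (N * ((a : ZMod n) * r i).val) / n = (N * ((b : ZMod n) * r i).val) / n := by
      have := congrFun hF i
      simpa [F, Fin.ext_iff] using this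
    set u := N * ((a : ZMod n) * r i).val
    set v := N * ((b : ZMod n) * r i).val
    have hu := Nat.div_add_mod u n
    have hv := Nat.div_add_mod v n
    have hu2 := Nat.mod_lt u hn0
    have hv2 := Nat.mod_lt v hn0
    rw [h1] at hu
    rw [abs_lt]
    constructor <;> omega
  rw [Finset.mem_range] at ha hb
  refine ⟨(a : ZMod n) - b, fun i => (((a : ZMod n) * r i).val : ℤ) - (((b : ZMod n) * r i).val : ℤ),
    ?_, ?_, ?_⟩
  · rcases lt_or_gt_of_ne hab with h | h
    · have := hcop (b - a) (by omega) (by omega)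
      rw [Nat.cast_sub h.le] at this
      rw [← neg_sub]
      exact this.neg
    · have := hcop (a - b) (by omega) (by omega)
      rwa [Nat.cast_sub h.le] at this
  · intro i
    push_cast
    rw [ZMod.natCast_zmod_val, ZMod.natCast_zmod_val]
    ring
  · intro i
    have h := hclose i
    have h2 : (N : ℤ) * |(((a : ZMod n) * r i).val : ℤ) - (((b : ZMod n) * r i).val : ℤ)| < n := by
      have h3 : ((N * ((a : ZMod n) * r i).val : ℕ) : ℤ) - (N * ((b : ZMod n) * r i).val : ℕ)
          = (N : ℤ) * ((((a : ZMod n) * r i).val : ℤ) - (((b : ZMod n) * r i).val : ℤ)) := by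
        push_cast
        ring
      rw [h3, abs_mul, Nat.abs_cast] at h
      exact h
    exact h2

theorem dilateN {G : Type*} [AddCommGroup G] [Finite G] (q N P : ℕ) (hN : 0 < N)
    (hP1 : N ^ q ≤ P) (hP2 : q * q ≤ P) (hG : 1 < Nat.card G)
    (hp : ∀ p : ℕ, p.Prime → p ∣ Nat.card G → P < p) (r : Fin q → G)
    (hr : Function.Injective r) :
    ∃ (n : ℕ) (y : Fin q → ℤ), 1 < n ∧ (∀ i, (N : ℤ) * |y i| < n) ∧ Function.Injective y ∧
      ∀ s : Fin q → ℤ, ∑ i, s i • r i = 0 → (n : ℤ) ∣ ∑ i, s i * y i := by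
  classical
  let S : Finset G := ((univ ×ˢ univ).filter (fun p : Fin q × Fin q => p.1 ≠ p.2)).image
    (fun p => r p.1 - r p.2)
  have hS0 : ∀ x ∈ S, x ≠ 0 := by
    intro x hx
    simp only [S, Finset.mem_image, Finset.mem_filter] at hx
    obtain ⟨p, ⟨_, hpne⟩, rfl⟩ := hx
    exact sub_ne_zero.mpr (fun h => hpne (hr h))
  have hScard : S.card ≤ P := by
    have e0 : ((univ ×ˢ univ).filter (fun p : Fin q × Fin q => p.1 ≠ p.2)).card ≤ q * q := by
      refine (Finset.card_filter_le _ _).trans ?_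
      rw [Finset.card_product, Finset.card_univ, Fintype.card_fin]
    exact (Finset.card_image_le.trans e0).trans hP2
  obtain ⟨ψ, hψ⟩ := exists_char P hp S hS0 hScard
  set n := Nat.card G with hn
  have hn0 : n ≠ 0 := by omega
  have hprim := Complex.isPrimitiveRoot_exp n hn0
  set ζ := Complex.exp (2 * Real.pi * Complex.I / n) with hζ
  have hroot : ∀ x : G, ∃ k : ℕ, k < n ∧ ζ ^ k = ψ x := by
    intro x
    have hx : (ψ x) ^ n = 1 := by
      rw [← AddChar.map_nsmul_eq_pow]
      have : n • x = 0 := by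
        rw [hn]
        exact card_nsmul_eq_zero'
      rw [this, AddChar.map_zero_eq_one]
    have : NeZero n := ⟨hn0⟩
    obtain ⟨k, hk, hk2⟩ := hprim.eq_pow_of_pow_eq_one hx
    exact ⟨k, hk, hk2⟩
  choose κ hκ1 hκ2 using hroot
  obtain ⟨d, y, hd, hy, hyN⟩ := dirichletN n q N hN hG (by
    intro p hpp hpn
    have h1 := hp p hpp hpn
    omega) (fun i => ((κ (r i) : ℕ) : ZMod n))
  have hchar : ∀ s : Fin q → ℤ, ψ (∑ i, s i • r i) = 1 ↔ (n : ℤ) ∣ ∑ i, s i * y i := by
    intro s
    have h1 : ψ (∑ i, s i • r i) = ζ ^ (∑ i, s i * (κ (r i) : ℤ)) := by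
      have hζ0 : ζ ≠ 0 := Complex.exp_ne_zero _
      have h2 : ∀ i, ψ (s i • r i) = ζ ^ (s i * (κ (r i) : ℤ)) := by
        intro i
        rw [AddChar.map_zsmul_eq_zpow, ← hκ2 (r i), mul_comm, zpow_mul, zpow_natCast]
      induction (univ : Finset (Fin q)) using Finset.induction_on with
      | empty => simp
      | insert a t hat ih =>
        rw [Finset.sum_insert hat, Finset.sum_insert hat, zpow_add₀ hζ0, AddChar.map_add_eq_mul,
          ih, h2]
    rw [h1, hprim.zpow_eq_one_iff_dvd]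
    rw [← ZMod.intCast_zmod_eq_zero_iff_dvd, ← ZMod.intCast_zmod_eq_zero_iff_dvd]
    have h3 : ((∑ i, s i * y i : ℤ) : ZMod n) = d * ((∑ i, s i * (κ (r i) : ℤ) : ℤ) : ZMod n) := by
      push_cast
      rw [Finset.mul_sum]
      refine Finset.sum_congr rfl fun i _ => ?_
      rw [hy i]
      ring
    rw [h3, IsUnit.mul_right_eq_zero hd]
  have hsingle : ∀ i : Fin q, ∑ l, (if l = i then (1:ℤ) else 0) • r l = r i := by
    intro i
    simp [Finset.sum_ite_eq']
  have hsingle' : ∀ i : Fin q, ∑ l, (if l = i then (1:ℤ) else 0) * y l = y i := by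
    intro i
    simp [Finset.sum_ite_eq']
  refine ⟨n, y, hG, hyN, ?_, ?_⟩
  · intro i j h
    by_contra hij
    apply hψ (r i - r j) (by
      simp only [S, Finset.mem_image, Finset.mem_filter]
      exact ⟨(i, j), ⟨by simp, hij⟩, rfl⟩)
    have := (hchar (fun l => (if l = i then 1 else 0) - (if l = j then 1 else 0))).mpr (by
      simp only [sub_mul]
      rw [Finset.sum_sub_distrib, hsingle', hsingle', h, sub_self]
      exact dvd_zero _)
    simp only [sub_smul] at this
    rwa [Finset.sum_sub_distrib, hsingle, hsingle] at this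
  · intro s hs
    rw [← hchar, hs, AddChar.map_zero_eq_one]

theorem exists_max {G : Type*} [AddCommGroup G] (A : Finset G) :
    ∃ B ⊆ A, Dissociated B ∧ B.card = dimSet A := by
  have h : dimSet A ∈ {d : ℕ | ∃ B : Finset G, B ⊆ A ∧ Dissociated B ∧ B.card = d} :=
    Nat.sSup_mem ⟨0, ∅, by simp, empty_diss, by simp⟩ (bdd A)
  obtain ⟨B, h1, h2, h3⟩ := h
  exact ⟨B, h1, h2, h3⟩

/-- lower bound by the integers -/
theorem lowerZ {G : Type*} [AddCommGroup G] [Finite G] (m P : ℕ)
    (hP1 : (m + 1) ^ m ≤ P) (hP2 : m * m ≤ P) (hG : 1 < Nat.card G)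
    (hp : ∀ p : ℕ, p.Prime → p ∣ Nat.card G → P < p) (A : Finset G) (hA : A.card = m) :
    dimGroup ℤ m ≤ dimSet A := by
  classical
  let e : Fin m ≃ A := (finCongr hA.symm).trans A.equivFin.symm
  let r : Fin m → G := fun i => (e i : G)
  have hr : Function.Injective r := fun i j h => e.injective (Subtype.ext h)
  obtain ⟨n, y, hn, hyN, hyinj, hyd⟩ := dilateN m (m + 1) P (by omega) hP1 hP2 hG hp r hr
  set Y : Finset ℤ := univ.image y with hY
  have hYc : Y.card = m := by
    rw [hY, Finset.card_image_of_injective _ hyinj, Finset.card_univ, Fintype.card_fin]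
  have h1 : dimGroup ℤ m ≤ dimSet Y := Nat.sInf_le ⟨Y, hYc, rfl⟩
  refine h1.trans ?_
  obtain ⟨Y', hY', hYd, hYk⟩ := exists_max Y
  let I : Finset (Fin m) := univ.filter (fun i => y i ∈ Y')
  have hIY : I.image y = Y' := by
    ext z
    constructor
    · intro hz
      obtain ⟨i, hi, rfl⟩ := Finset.mem_image.mp hz
      exact (Finset.mem_filter.mp hi).2
    · intro hz
      obtain ⟨i, _, hi⟩ := Finset.mem_image.mp (hY' hz)
      exact Finset.mem_image.mpr ⟨i, Finset.mem_filter.mpr ⟨Finset.mem_univ _, by rw [hi]; exact hz⟩, hi⟩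
  have hIk : I.card = dimSet Y := by
    rw [← hYk, ← hIY, Finset.card_image_of_injective _ hyinj]
  have hIm : I.card ≤ m := by
    have := Finset.card_filter_le (univ : Finset (Fin m)) (fun i => y i ∈ Y')
    rwa [Finset.card_univ, Fintype.card_fin] at this
  have hmain := of_indexed' I r (by
    intro s hs hsum
    have h1 : (n : ℤ) ∣ ∑ i ∈ I, s i * y i := by
      have h := hyd (fun i => if i ∈ I then s i else 0) (by
        simp only [ite_smul, zero_smul]
        rw [← Finset.sum_filter, Finset.filter_mem_eq_inter, Finset.univ_inter]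
        exact hsum)
      simp only [ite_mul, zero_mul] at h
      rwa [← Finset.sum_filter, Finset.filter_mem_eq_inter, Finset.univ_inter] at h
    have h2 : ((m + 1 : ℕ) : ℤ) * |∑ i ∈ I, s i * y i| ≤ ∑ i ∈ I, ((m + 1 : ℕ) : ℤ) * |y i| := by
      rw [← Finset.mul_sum]
      apply mul_le_mul_of_nonneg_left _ (by positivity)
      calc |∑ i ∈ I, s i * y i| ≤ ∑ i ∈ I, |s i * y i| := Finset.abs_sum_le_sum_abs _ _
        _ ≤ ∑ i ∈ I, |y i| := by
          apply Finset.sum_le_sum
          intro i hi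
          rw [abs_mul]
          have : |s i| ≤ 1 := by
            rcases hs i hi with h | h | h <;> simp [h]
          nlinarith [abs_nonneg (y i)]
    have h3 : ∑ i ∈ I, ((m + 1 : ℕ) : ℤ) * |y i| ≤ ∑ i ∈ I, (n : ℤ) :=
      Finset.sum_le_sum fun i _ => (hyN i).le
    rw [Finset.sum_const, nsmul_eq_mul] at h3
    have h4 : |∑ i ∈ I, s i * y i| < n := by
      have h5 : (I.card : ℤ) * n ≤ (m : ℤ) * n :=
        mul_le_mul_of_nonneg_right (by exact_mod_cast hIm) (by positivity)
      have h6 : ((m + 1 : ℕ) : ℤ) * |∑ i ∈ I, s i * y i| ≤ (m : ℤ) * n := h2.trans (h3.trans h5)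
      by_contra hcon
      push Not at hcon
      have h7 : ((m + 1 : ℕ) : ℤ) * (n : ℤ) ≤ ((m + 1 : ℕ) : ℤ) * |∑ i ∈ I, s i * y i| :=
        mul_le_mul_of_nonneg_left hcon (by positivity)
      push_cast at h6 h7
      have h8 : (1 : ℤ) < n := by exact_mod_cast hn
      nlinarith
    have h5 : ∑ i ∈ I, s i * y i = 0 := Int.eq_zero_of_abs_lt_dvd h1 h4
    exact to_indexed I y hyinj.injOn (by rw [hIY]; exact hYd) s hs (by
      simpa [smul_eq_mul] using h5))
  rw [← hIk, ← hmain.2]
  apply le_csSup (bdd A)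
  refine ⟨_, ?_, hmain.1, rfl⟩
  intro x hx
  obtain ⟨i, hi, rfl⟩ := Finset.mem_image.mp hx
  exact (e i).2

/-- upper bound by the integers -/
theorem upperZ {G : Type*} [AddCommGroup G] (Y : Finset ℤ) (g : G)
    (hg : ∀ a ∈ Y, ∀ b ∈ Y, a • g = b • g → a = b) :
    ∃ A : Finset G, A.card = Y.card ∧ dimSet A ≤ dimSet Y := by
  classical
  refine ⟨Y.image (fun z : ℤ => z • g), Finset.card_image_of_injOn (fun a ha b hb h =>
    hg a ha b hb h), ?_⟩
  obtain ⟨B, hB, hBd, hBk⟩ := exists_max (Y.image (fun z : ℤ => z • g))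
  rw [← hBk]
  let Y' := Y.filter (fun z : ℤ => z • g ∈ B)
  have hinj : Set.InjOn (fun z : ℤ => z • g) Y' := by
    intro a ha b hb h
    exact hg a (Finset.mem_filter.mp ha).1 b (Finset.mem_filter.mp hb).1 h
  have himg : Y'.image (fun z : ℤ => z • g) = B := by
    ext x
    constructor
    · intro hx
      obtain ⟨z, hz, rfl⟩ := Finset.mem_image.mp hx
      exact (Finset.mem_filter.mp hz).2
    · intro hx
      obtain ⟨z, hz, hzx⟩ := Finset.mem_image.mp (hB hx)
      refine Finset.mem_image.mpr ⟨z, Finset.mem_filter.mpr ⟨hz, ?_⟩, hzx⟩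
      show z • g ∈ B
      have : z • g = x := hzx
      rw [this]; exact hx
  have hd : Dissociated Y' := by
    intro ε hε hsum b hb
    refine to_indexed Y' (fun z : ℤ => z • g) hinj (by rw [himg]; exact hBd) ε hε ?_ b hb
    have : ∑ i ∈ Y', ε i • (i • g) = (∑ i ∈ Y', ε i • i) • g := by
      rw [Finset.sum_smul]
      refine Finset.sum_congr rfl fun i _ => ?_
      rw [smul_assoc]
    rw [this, hsum, zero_smul]
  rw [← himg, Finset.card_image_of_injOn hinj]
  exact le_csSup (bdd Y) ⟨Y', Finset.filter_subset _ _, hd, rfl⟩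

theorem limitZ (m : ℕ) : ∃ P : ℕ, ∀ (G : Type*) [AddCommGroup G] [Finite G], 1 < Nat.card G →
    (∀ p : ℕ, p.Prime → p ∣ Nat.card G → P < p) → dimGroup G m = dimGroup ℤ m := by
  classical
  have hne : Set.Nonempty {d : ℕ | ∃ A : Finset ℤ, A.card = m ∧ dimSet A = d} := by
    refine ⟨_, (range m).image (fun i : ℕ => (i : ℤ)), ?_, rfl⟩
    rw [Finset.card_image_of_injective _ Nat.cast_injective, card_range]
  obtain ⟨Y, hYc, hYd⟩ := Nat.sInf_mem hne
  let M : ℕ := ∑ y ∈ Y, y.natAbs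
  have hM : ∀ y ∈ Y, y.natAbs ≤ M := fun y hy =>
    Finset.single_le_sum (f := fun y : ℤ => y.natAbs) (fun _ _ => Nat.zero_le _) hy
  refine ⟨(m + 1) ^ m + m * m + 2 * M, ?_⟩
  intro G _ _ hG hp
  have hnt : Nontrivial G := (Finite.one_lt_card_iff_nontrivial).mp hG
  obtain ⟨g, hg⟩ := exists_ne (0 : G)
  have hord : 2 * M < addOrderOf g := by
    have h1 : addOrderOf g ≠ 1 := by
      rw [Ne, AddMonoid.addOrderOf_eq_one_iff]
      exact hg
    obtain ⟨p, hpp, hpd⟩ := Nat.exists_prime_and_dvd h1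
    have h2 := hp p hpp (hpd.trans (addOrderOf_dvd_natCard g))
    have h3 := Nat.le_of_dvd (addOrderOf_pos g) hpd
    omega
  have hlow : ∀ A : Finset G, A.card = m → dimGroup ℤ m ≤ dimSet A := fun A hA =>
    lowerZ m _ (by omega) (by omega) hG hp A hA
  obtain ⟨A, hA1, hA2⟩ := upperZ Y g (by
    intro a ha b hb hab
    have h1 : (a - b) • g = 0 := by rw [sub_smul, sub_eq_zero]; exact hab
    rw [← addOrderOf_dvd_iff_zsmul_eq_zero] at h1
    have ha2 := hM a ha
    have hb2 := hM b hb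
    have h2 := Int.eq_zero_of_abs_lt_dvd h1 (by rw [abs_lt]; constructor <;> omega)
    omega)
  have hAm : A.card = m := by rw [hA1, hYc]
  apply le_antisymm
  · calc dimGroup G m ≤ dimSet A := Nat.sInf_le ⟨A, hAm, rfl⟩
      _ ≤ dimSet Y := hA2
      _ = dimGroup ℤ m := hYd
  · apply le_csInf (⟨_, A, hAm, rfl⟩ :
      Set.Nonempty {d : ℕ | ∃ A : Finset G, A.card = m ∧ dimSet A = d})
    rintro d ⟨A', hA', rfl⟩
    exact hlow A' hA'

end Pool.Agent.X33.DS
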