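import Pool.Agent.X33.DissI
import Pool.Agent.H346R3.E963.Main

namespace Pool.Agent.X33.DS

open Finset

theorem of_addDissociated (Y : Finset ℤ)
    (hY : AddDissociated ((Y.image (fun y : ℤ => (y : ℝ)) : Finset ℝ) : Set ℝ)) :
    Dissociated Y := by
  classical
  intro ε hε hsum
  have hcinj : Function.Injective (fun y : ℤ => (y : ℝ)) := Int.cast_injective
  let S : Finset ℝ := (Y.filter (fun y => ε y = 1)).image (fun y : ℤ => (y : ℝ))
  let T : Finset ℝ := (Y.filter (fun y => ε y = -1)).image (fun y : ℤ => (y : ℝ))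
  have hS : (S : Set ℝ) ⊆ ((Y.image (fun y : ℤ => (y : ℝ)) : Finset ℝ) : Set ℝ) := by
    intro x hx
    have hx' : x ∈ S := hx
    obtain ⟨y, hy, rfl⟩ := Finset.mem_image.mp hx'
    exact Finset.mem_coe.mpr (Finset.mem_image_of_mem _ (Finset.mem_filter.mp hy).1)
  have hT : (T : Set ℝ) ⊆ ((Y.image (fun y : ℤ => (y : ℝ)) : Finset ℝ) : Set ℝ) := by
    intro x hx
    have hx' : x ∈ T := hx
    obtain ⟨y, hy, rfl⟩ := Finset.mem_image.mp hx'
    exact Finset.mem_coe.mpr (Finset.mem_image_of_mem _ (Finset.mem_filter.mp hy).1)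
  have h1 : ∑ y ∈ Y, ε y • y = ∑ y ∈ Y.filter (fun y => ε y = 1), y
      - ∑ y ∈ Y.filter (fun y => ε y = -1), y := by
    rw [Finset.sum_filter, Finset.sum_filter, ← Finset.sum_sub_distrib]
    refine Finset.sum_congr rfl fun y hy => ?_
    rcases hε y hy with h | h | h <;> simp [h]
  have h2 : ∑ x ∈ S, x = ∑ x ∈ T, x := by
    simp only [S, T]
    rw [Finset.sum_image hcinj.injOn, Finset.sum_image hcinj.injOn]
    have h3 : ∑ y ∈ Y.filter (fun y => ε y = 1), y = ∑ y ∈ Y.filter (fun y => ε y = -1), y := by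
      rw [hsum] at h1
      linarith
    show ∑ y ∈ Y.filter (fun y => ε y = 1), (y : ℝ) = ∑ y ∈ Y.filter (fun y => ε y = -1), (y : ℝ)
    rw [← Int.cast_sum, ← Int.cast_sum, h3]
  have hST : S = T := hY hS hT h2
  intro y hy
  rcases hε y hy with h | h | h
  · exfalso
    have hyT : (y : ℝ) ∈ T := Finset.mem_image_of_mem _ (Finset.mem_filter.mpr ⟨hy, h⟩)
    rw [← hST] at hyT
    obtain ⟨z, hz, hzy⟩ := Finset.mem_image.mp hyT
    have : z = y := hcinj hzy
    have h4 := (Finset.mem_filter.mp hz).2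
    rw [this] at h4
    omega
  · exact h
  · exfalso
    have hyS : (y : ℝ) ∈ S := Finset.mem_image_of_mem _ (Finset.mem_filter.mpr ⟨hy, h⟩)
    rw [hST] at hyS
    obtain ⟨z, hz, hzy⟩ := Finset.mem_image.mp hyS
    have : z = y := hcinj hzy
    have h4 := (Finset.mem_filter.mp hz).2
    rw [this] at h4
    omega

theorem lowZ (m : ℕ) : Nat.log 2 m ≤ dimGroup ℤ m + 19 := by
  classical
  have hcinj : Function.Injective (fun y : ℤ => (y : ℝ)) := Int.cast_injective
  have hne : Set.Nonempty {d : ℕ | ∃ A : Finset ℤ, A.card = m ∧ dimSet A = d} := by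
    refine ⟨_, (range m).image (fun i : ℕ => (i : ℤ)), ?_, rfl⟩
    rw [Finset.card_image_of_injective _ Nat.cast_injective, card_range]
  obtain ⟨Y, hYc, hYd⟩ := Nat.sInf_mem hne
  obtain ⟨B, hBA, hlog, hB⟩ := H346R3.E963.const_loss (Y.image (fun y : ℤ => (y : ℝ)))
  rw [Finset.card_image_of_injective _ hcinj, hYc] at hlog
  let B' := Y.filter (fun y : ℤ => (y : ℝ) ∈ B)
  have himg : B'.image (fun y : ℤ => (y : ℝ)) = B := by
    ext x
    constructor
    · intro hx
      obtain ⟨z, hz, rfl⟩ := Finset.mem_image.mp hx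
      exact (Finset.mem_filter.mp hz).2
    · intro hx
      obtain ⟨z, hz, hzx⟩ := Finset.mem_image.mp (hBA hx)
      refine Finset.mem_image.mpr ⟨z, Finset.mem_filter.mpr ⟨hz, ?_⟩, hzx⟩
      have : (z : ℝ) = x := hzx
      rw [this]; exact hx
  have hd : Dissociated B' := of_addDissociated B' (by rw [himg]; exact hB)
  have hc : B'.card = B.card := by
    rw [← himg, Finset.card_image_of_injective _ hcinj]
  have hle : B'.card ≤ dimSet Y :=
    le_csSup (bdd Y) ⟨B', Finset.filter_subset _ _, hd, rfl⟩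
  have hYd' : dimSet Y = dimGroup ℤ m := hYd
  omega

theorem Q_of (h k : ℕ) (hk : (k + 1) * h + 1 < 2 ^ (k + 1)) : Q h k := by
  intro Y hY
  rw [Finset.mem_powersetCard] at hY
  refine lt_of_le_of_lt ?_ hk
  have hsub : Y.powerset.image (fun S => ∑ x ∈ S, x) ⊆ range ((k + 1) * h + 1) := by
    intro s hs
    obtain ⟨S, hS, rfl⟩ := Finset.mem_image.mp hs
    rw [Finset.mem_range]
    have hSY := Finset.mem_powerset.mp hS
    have h1 : ∑ x ∈ S, x ≤ S.card • h := by
      apply Finset.sum_le_card_nsmul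
      intro x hx
      exact (Finset.mem_Icc.mp (hY.1 (hSY hx))).2
    have h2 : S.card ≤ k + 1 := by
      rw [← hY.2]
      exact Finset.card_le_card hSY
    have h3 : S.card * h ≤ (k + 1) * h := Nat.mul_le_mul_right _ h2
    rw [smul_eq_mul] at h1
    show ∑ x ∈ S, x < (k + 1) * h + 1
    omega
  have := Finset.card_le_card hsub
  rwa [card_range] at this

theorem exponent_ok (m : ℕ) :
    (Nat.log 2 m + Nat.log 2 (Nat.log 2 m) + 1 + 1) * (m / 2) + 1
      < 2 ^ (Nat.log 2 m + Nat.log 2 (Nat.log 2 m) + 1 + 1) := by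
  set L := Nat.log 2 m with hL
  set l := Nat.log 2 L with hl
  have hm : m < 2 ^ (L + 1) := Nat.lt_pow_succ_log_self (by norm_num) m
  have hLl : L < 2 ^ (l + 1) := Nat.lt_pow_succ_log_self (by norm_num) L
  have hl2 : l + 1 < 2 ^ (l + 1) := Nat.lt_two_pow_self
  have e1 : 2 ^ (L + 1) = 2 * 2 ^ L := by rw [pow_succ]; ring
  have hpos : 0 < 2 ^ L := by positivity
  have hm2 : m / 2 ≤ 2 ^ L - 1 := by omega
  have h1 : (L + l + 1 + 1) * (m / 2) ≤ (L + l + 1 + 1) * (2 ^ L - 1) :=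
    Nat.mul_le_mul_left _ hm2
  have h2 : (L + l + 1 + 1) * (2 ^ L - 1) + (L + l + 1 + 1) = (L + l + 1 + 1) * 2 ^ L := by
    rw [← Nat.mul_succ]
    congr 1
    omega
  have h3 : L + l + 1 + 1 ≤ 2 ^ (l + 2) := by
    have : 2 ^ (l + 2) = 2 * 2 ^ (l + 1) := by rw [pow_succ]; ring
    omega
  have h4 : (L + l + 1 + 1) * 2 ^ L ≤ 2 ^ (l + 2) * 2 ^ L := Nat.mul_le_mul_right _ h3
  have h5 : 2 ^ (l + 2) * 2 ^ L = 2 ^ (L + l + 1 + 1) := by
    rw [← pow_add]
    congr 1
    ring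
  omega

theorem bounds {G : Type*} [AddCommGroup G] [Finite G] (m : ℕ) (hm : 1 ≤ m)
    (hG : 1 < Nat.card G)
    (hp : ∀ p : ℕ, p.Prime → p ∣ Nat.card G → (m + 1) ^ m + m * m < p) :
    Nat.log 2 m ≤ dimGroup G m + 19 ∧
      dimGroup G m ≤ Nat.log 2 m + Nat.log 2 (Nat.log 2 m) + 1 := by
  classical
  have hnt : Nontrivial G := (Finite.one_lt_card_iff_nontrivial).mp hG
  obtain ⟨g, hg⟩ := exists_ne (0 : G)
  have hbig : m + 1 ≤ (m + 1) ^ m := by
    calc m + 1 = (m + 1) ^ 1 := by rw [pow_one]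
      _ ≤ (m + 1) ^ m := Nat.pow_le_pow_right (by omega) hm
  have hord : m + 1 < addOrderOf g := by
    have h1 : addOrderOf g ≠ 1 := by
      rw [Ne, AddMonoid.addOrderOf_eq_one_iff]
      exact hg
    obtain ⟨p, hpp, hpd⟩ := Nat.exists_prime_and_dvd h1
    have h2 := hp p hpp (hpd.trans (addOrderOf_dvd_natCard g))
    have h3 := Nat.le_of_dvd (addOrderOf_pos g) hpd
    omega
  obtain ⟨A, hA1, hA2⟩ := Finset.exists_subset_card_eq (show m ≤ (ivG g (m / 2)).card by
    rw [ivG_card g (m / 2) (by omega)]; omega)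
  have hup := dim_ivG g (m / 2) (Nat.log 2 m + Nat.log 2 (Nat.log 2 m) + 1)
    (Q_of _ _ (exponent_ok m)) A hA1
  constructor
  · have h1 := lowZ m
    have h2 : dimGroup ℤ m ≤ dimGroup G m := by
      apply le_csInf (⟨_, A, hA2, rfl⟩ :
        Set.Nonempty {d : ℕ | ∃ A : Finset G, A.card = m ∧ dimSet A = d})
      rintro d ⟨A', hA', rfl⟩
      exact lowerZ m ((m + 1) ^ m + m * m) (by omega) (by omega) hG hp A' hA'
    omega
  · exact le_trans (Nat.sInf_le ⟨A, hA2, rfl⟩) hup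

end Pool.Agent.X33.DS
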