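import Pool.Agent.X33.DissB

namespace Pool.Agent.X33.DS

open Finset

/-- lower bound for all moduli `n` with an odd divisor `w > 1` -/
theorem lowerAll (n w k : ℕ) (hn0 : 0 < n) (hw : Odd w) (hw1 : 1 < w) (hwn : w ∣ n)
    (h2 : 2 ^ k ≤ n) (A : Finset (ZMod n))
    (hA : 2 * k * ((n - A.card) / 2) < Nat.totient w) : k ≤ dimSet A := by
  classical
  have hn1 : 1 < n := lt_of_lt_of_le hw1 (Nat.le_of_dvd hn0 hwn)
  have : NeZero n := ⟨by omega⟩
  have : NeZero w := ⟨by omega⟩
  have : Fact (1 < n) := ⟨hn1⟩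
  have : Fact (1 < w) := ⟨hw1⟩
  have hu2 := two_unit w hw
  -- no power of two vanishes
  have hpow : ∀ (u : (ZMod n)ˣ) (i : ℕ), (u : ZMod n) * 2 ^ i ≠ 0 := by
    intro u i h
    have h1 := congrArg (ZMod.castHom hwn (ZMod w)) h
    rw [map_mul, map_pow, map_zero] at h1
    have h3 : ZMod.castHom hwn (ZMod w) 2 = 2 := map_ofNat _ 2
    rw [h3] at h1
    have hu : IsUnit (ZMod.castHom hwn (ZMod w) (u : ZMod n)) := u.isUnit.map _
    exact (hu.mul (hu2.pow i)).ne_zero h1
  set C : Finset (ZMod n) := univ \ A with hC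
  have hCcard : C.card = n - A.card := by
    rw [hC, Finset.card_sdiff_of_subset (Finset.subset_univ _), Finset.card_univ, ZMod.card]
  set C' : Finset (ZMod n) := C.filter (fun c => -c ∈ C ∧ c + c ≠ 0) with hC'
  have hle : C'.card ≤ C.card := Finset.card_filter_le _ _
  have heven : Even C'.card := by
    have h1 : ∑ c ∈ C', (1 : ZMod 2) = 0 := by
      refine Finset.sum_involution (fun c _ => -c) ?_ ?_ ?_ ?_
      · intro a _; decide
      · intro a ha _ h
        rw [hC', Finset.mem_filter] at ha
        apply ha.2.2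
        nth_rewrite 1 [← h]
        simp
      · intro a ha
        rw [hC', Finset.mem_filter] at ha ⊢
        refine ⟨ha.2.1, ?_, ?_⟩
        · simpa using ha.1
        · intro h
          apply ha.2.2
          have h5 : -(-a + -a) = 0 := by rw [h, neg_zero]
          simpa using h5
      · intro a ha; simp
    rw [Finset.sum_const, nsmul_eq_mul, mul_one] at h1
    exact (ZMod.natCast_eq_zero_iff_even).mp h1
  have hC'card : C'.card ≤ 2 * ((n - A.card) / 2) := by
    obtain ⟨r, hr⟩ := heven
    rw [hCcard] at hle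
    omega
  have hsurj := ZMod.unitsMap_surjective hwn
  choose L hL using hsurj
  have hLcast : ∀ x : (ZMod w)ˣ, ZMod.castHom hwn (ZMod w) ((L x : (ZMod n)ˣ) : ZMod n) = (x : ZMod w) := by
    intro x
    have := congrArg Units.val (hL x)
    simpa [ZMod.unitsMap] using this
  have hex : ∃ u : (ZMod n)ˣ, ∀ i < k, (u : ZMod n) * 2 ^ i ∈ A ∨ -((u : ZMod n) * 2 ^ i) ∈ A := by
    by_contra hcon
    push Not at hcon
    have hcov : (univ : Finset (ZMod w)ˣ) ⊆
        (range k).biUnion (fun i => univ.filter
          (fun x : (ZMod w)ˣ => ((L x : (ZMod n)ˣ) : ZMod n) * 2 ^ i ∈ C')) := by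
      intro x _
      obtain ⟨i, hi, h1, h2⟩ := hcon (L x)
      rw [Finset.mem_biUnion]
      refine ⟨i, by simpa using hi, ?_⟩
      rw [Finset.mem_filter, hC', Finset.mem_filter, hC]
      refine ⟨by simp, by simpa using h1, by simpa using h2, ?_⟩
      have := hpow (L x) (i + 1)
      rw [pow_succ] at this
      intro h6
      apply this
      rw [← h6]
      ring
    have hcard := Finset.card_le_card hcov
    have hcard2 : ((range k).biUnion (fun i => univ.filter
        (fun x : (ZMod w)ˣ => ((L x : (ZMod n)ˣ) : ZMod n) * 2 ^ i ∈ C'))).card ≤ k * C'.card := by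
      have := Finset.card_biUnion_le_card_mul (range k) (fun i => univ.filter
        (fun x : (ZMod w)ˣ => ((L x : (ZMod n)ˣ) : ZMod n) * 2 ^ i ∈ C')) C'.card (by
          intro i _
          apply Finset.card_le_card_of_injOn
            (fun x : (ZMod w)ˣ => ((L x : (ZMod n)ˣ) : ZMod n) * 2 ^ i)
          · intro x hx
            simpa using hx
          · intro x _ y _ hxy
            have h3 : ((L x : (ZMod n)ˣ) : ZMod n) * 2 ^ i = ((L y : (ZMod n)ˣ) : ZMod n) * 2 ^ i := hxy
            have h4 := congrArg (ZMod.castHom hwn (ZMod w)) h3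
            rw [map_mul, map_mul, map_pow, hLcast, hLcast] at h4
            have h5 : ZMod.castHom hwn (ZMod w) 2 = 2 := map_ofNat _ 2
            rw [h5] at h4
            exact Units.ext ((hu2.pow i).mul_left_injective h4))
      simpa using this
    rw [Finset.card_univ, ZMod.card_units_eq_totient] at hcard
    have h5 : k * C'.card ≤ 2 * k * ((n - A.card) / 2) := by
      calc k * C'.card ≤ k * (2 * ((n - A.card) / 2)) := Nat.mul_le_mul_left _ hC'card
        _ = 2 * k * ((n - A.card) / 2) := by ring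
    omega
  obtain ⟨u, hu⟩ := hex
  let t : ℕ → ℤ := fun i => if (u : ZMod n) * 2 ^ i ∈ A then 1 else -1
  have ht : ∀ i < k, t i = 1 ∨ t i = -1 := by
    intro i _
    by_cases h : (u : ZMod n) * 2 ^ i ∈ A <;> simp [t, h]
  have hd := of_indexed k (fun i => (t i : ZMod n) * ((u : ZMod n) * 2 ^ i))
    (fun s hs hsum => pow_diss n k h2 u t ht s hs hsum)
  apply le_csSup (bdd A)
  refine ⟨_, ?_, hd.1, hd.2⟩
  intro x hx
  obtain ⟨i, hi, rfl⟩ := Finset.mem_image.mp hx
  have hi' : i < k := by simpa using hi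
  by_cases h : (u : ZMod n) * 2 ^ i ∈ A
  · simpa [t, h] using h
  · have := (hu i hi').resolve_left h
    simpa [t, h] using this

theorem exact_valueAll (n w k m : ℕ) (hw : Odd w) (hw1 : 1 < w) (hwn : w ∣ n)
    (h2 : 2 ^ k ≤ n) (h3 : n < 2 ^ (k + 1)) (hm : m ≤ n)
    (h : 2 * k * ((n - m) / 2) < Nat.totient w) :
    dimGroup (ZMod n) m = k := by
  classical
  have hn0 : 0 < n := lt_of_lt_of_le (by positivity) h2
  have : NeZero n := ⟨by omega⟩
  have hset : {d : ℕ | ∃ A : Finset (ZMod n), A.card = m ∧ dimSet A = d} = {k} := by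
    ext d
    constructor
    · rintro ⟨A, hA, rfl⟩
      have h4 := lowerAll n w k hn0 hw hw1 hwn h2 A (by rw [hA]; exact h)
      have h5 := upper k (by rw [ZMod.card]; exact h3) A
      simp only [Set.mem_singleton_iff]
      omega
    · intro hd
      have hd' : d = k := hd
      obtain ⟨A, _, hA⟩ := Finset.exists_subset_card_eq
        (show m ≤ (univ : Finset (ZMod n)).card by
          rw [Finset.card_univ, ZMod.card]; exact hm)
      refine ⟨A, hA, ?_⟩
      have h4 := lowerAll n w k hn0 hw hw1 hwn h2 A (by rw [hA]; exact h)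
      have h5 := upper k (by rw [ZMod.card]; exact h3) A
      omega
  unfold dimGroup
  rw [hset, csInf_singleton]

end Pool.Agent.X33.DS
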