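import Pool.Agent.X33.DissH
import Pool.Agent.X33.DissQ
import Pool.Agent.Helper25.E963Real

namespace Pool.Agent.X33.DS

open Finset

theorem of_addDissociatedG {G : Type*} [AddCommGroup G] (Y : Finset G)
    (hY : AddDissociated (Y : Set G)) : Dissociated Y := by
  classical
  intro ε hε hsum
  let S : Finset G := Y.filter (fun y => ε y = 1)
  let T : Finset G := Y.filter (fun y => ε y = -1)
  have hS : (S : Set G) ⊆ (Y : Set G) := Finset.coe_subset.mpr (Finset.filter_subset _ _)
  have hT : (T : Set G) ⊆ (Y : Set G) := Finset.coe_subset.mpr (Finset.filter_subset _ _)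
  have h1 : ∑ y ∈ Y, ε y • y = ∑ y ∈ S, y - ∑ y ∈ T, y := by
    simp only [S, T]
    rw [Finset.sum_filter, Finset.sum_filter, ← Finset.sum_sub_distrib]
    refine Finset.sum_congr rfl fun y hy => ?_
    rcases hε y hy with h | h | h <;> simp [h]
  have h2 : ∑ x ∈ S, x = ∑ x ∈ T, x := by
    rw [hsum] at h1
    exact sub_eq_zero.mp h1.symm
  have hST : S = T := hY hS hT h2
  intro y hy
  rcases hε y hy with h | h | h
  · exfalso
    have hyT : y ∈ T := Finset.mem_filter.mpr ⟨hy, h⟩
    rw [← hST] at hyT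
    have h4 := (Finset.mem_filter.mp hyT).2
    omega
  · exact h
  · exfalso
    have hyS : y ∈ S := Finset.mem_filter.mpr ⟨hy, h⟩
    rw [hST] at hyS
    have h4 := (Finset.mem_filter.mp hyS).2
    omega

open H25.E963 in
theorem lowerR (q k : ℕ) (hP : P q k) (A : Finset ℝ) (hA : 2 * q ≤ A.card) :
    ∃ B ⊆ A, k ≤ B.card ∧ AddDissociated (B : Set ℝ) := by
  classical
  obtain ⟨n, hninj, hn⟩ := exists_int_model A
  have hcard := card_natAbs A n hninj
  set R := (A.image (fun a => (n a).natAbs)).erase 0 with hR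
  obtain ⟨R', hR'R, hR'c⟩ := Finset.exists_subset_card_eq (show q ≤ R.card by omega)
  obtain ⟨Y, hYX, hYk, hYd⟩ := hP (R'.image (fun p : ℕ => (p : ℤ))) (by
    intro x hx
    obtain ⟨p, hp, rfl⟩ := Finset.mem_image.mp hx
    have h0 := (Finset.mem_erase.mp (hR'R hp)).1
    have : 0 < p := Nat.pos_of_ne_zero h0
    exact_mod_cast this) (by
    rw [Finset.card_image_of_injective _ Nat.cast_injective, hR'c])
  let I : Finset ℕ := R'.filter (fun p : ℕ => (p : ℤ) ∈ Y)
  have hIY : I.image (fun p : ℕ => (p : ℤ)) = Y := by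
    ext z
    constructor
    · intro hz
      obtain ⟨i, hi, rfl⟩ := Finset.mem_image.mp hz
      exact (Finset.mem_filter.mp hi).2
    · intro hz
      obtain ⟨i, hi1, hi⟩ := Finset.mem_image.mp (hYX hz)
      have hi' : (i : ℤ) = z := hi
      exact Finset.mem_image.mpr ⟨i, Finset.mem_filter.mpr ⟨hi1, by rw [hi']; exact hz⟩, hi⟩
  have hIk : I.card = k := by
    rw [← hYk, ← hIY, Finset.card_image_of_injective _ Nat.cast_injective]
  have hRF : RFn I := by
    intro e he hs
    refine to_indexed I (fun p : ℕ => (p : ℤ)) Nat.cast_injective.injOn (by rw [hIY]; exact hYd) e ?_ ?_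
    · intro i hi
      have := abs_le.mp (he i hi)
      omega
    · simpa [smul_eq_mul] using hs
  obtain ⟨B, hBA, hBc, hBd⟩ := pull_back A n hn I
    ((Finset.filter_subset _ _).trans (hR'R.trans (Finset.erase_subset _ _))) hRF
  exact ⟨B, hBA, by omega, hBd⟩

theorem upperR (h k n : ℕ) (hQ : Q h k) (hn : n ≤ 2 * h + 1) :
    ∃ A : Finset ℝ, A.card = n ∧ ∀ B ⊆ A, AddDissociated (B : Set ℝ) → B.card ≤ k := by
  classical
  have hinj : Function.Injective (fun z : ℤ => (z : ℝ)) := Int.cast_injective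
  obtain ⟨A, hA1, hA2⟩ := Finset.exists_subset_card_eq
    (show n ≤ ((Icc (-(h:ℤ)) h).image (fun z : ℤ => (z : ℝ))).card by
      rw [Finset.card_image_of_injective _ hinj, Int.card_Icc]; omega)
  refine ⟨A, hA2, ?_⟩
  intro B hBA hB
  by_contra hcon
  obtain ⟨B', hB', hc⟩ := Finset.exists_subset_card_eq (show k + 1 ≤ B.card by omega)
  refine no_small hQ B' ((of_addDissociatedG B hB).subset hB') hc (1 : ℝ) ?_
  intro b hb
  obtain ⟨z, hz, hzb⟩ := Finset.mem_image.mp (hA1 (hBA (hB' hb)))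
  rw [Finset.mem_Icc] at hz
  refine ⟨z, by omega, ?_⟩
  rw [zsmul_eq_mul, mul_one]
  exact hzb

end Pool.Agent.X33.DS
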