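import Mathlib

set_option autoImplicit false

/-!
# Balanced 4-way partitions of the five-point stencil mesh (MP_d1f6bb_co)

Two opposite corners are cut off by staircases along antidiagonals, the band in between is cut along
the main diagonal; the ends of the staircases are trimmed to balance the parts.
-/

namespace Pool.Agent.X33.Mesh

open Finset

/-- the points of the mesh `M_X` -/
def mesh (X : ℕ) : Finset (ℕ × ℕ) := range X ×ˢ range X

/-- `u` is equal to `v` or is a neighbour of `v` in the five-point stencil -/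
def Near (u v : ℕ × ℕ) : Prop :=
  u = v ∨ (u.1 = v.1 ∧ (u.2 + 1 = v.2 ∨ v.2 + 1 = u.2)) ∨
    (u.2 = v.2 ∧ (u.1 + 1 = v.1 ∨ v.1 + 1 = u.1))

instance (u v : ℕ × ℕ) : Decidable (Near u v) := by unfold Near; infer_instance

/-- the net `N[v]` -/
def net (X : ℕ) (v : ℕ × ℕ) : Finset (ℕ × ℕ) := (mesh X).filter fun u => Near u v

/-- all four parts have `X ^ 2 / 4` points -/
def Balanced (X : ℕ) (c : ℕ × ℕ → Fin 4) : Prop :=
  ∀ i : Fin 4, 4 * ((mesh X).filter fun v => c v = i).card = X ^ 2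

/-- the sum over all nets of the number of parts that meet the net, minus one -/
def cost (X : ℕ) (c : ℕ × ℕ → Fin 4) : ℕ := ∑ v ∈ mesh X, (((net X v).image c).card - 1)

/-- the least cost of a perfectly balanced 4-way partition -/
noncomputable def V (X : ℕ) : ℕ := sInf {m | ∃ c, Balanced X c ∧ cost X c = m}

/-- points outside the part `p` with a neighbour in the part `p` -/
def B (X : ℕ) (c : ℕ × ℕ → Fin 4) (p : Fin 4) : Finset (ℕ × ℕ) :=
  (mesh X).filter fun v => c v ≠ p ∧ ∃ u ∈ mesh X, Near u v ∧ c u = p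

theorem cost_le (X : ℕ) (c : ℕ × ℕ → Fin 4) : cost X c ≤ ∑ p, (B X c p).card := by
  have h : ∀ v ∈ mesh X, ((net X v).image c).card - 1 ≤
      ∑ p : Fin 4, if (c v ≠ p ∧ ∃ u ∈ mesh X, Near u v ∧ c u = p) then 1 else 0 := by
    intro v _
    rw [← Finset.card_filter]
    have hs : (net X v).image c ⊆ insert (c v)
        (univ.filter fun p => c v ≠ p ∧ ∃ u ∈ mesh X, Near u v ∧ c u = p) := by
      intro p hp
      obtain ⟨u, hu, rfl⟩ := Finset.mem_image.1 hp
      obtain ⟨hu1, hu2⟩ := Finset.mem_filter.1 hu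
      rw [Finset.mem_insert]
      by_cases h : c u = c v
      · exact Or.inl h
      · right
        exact Finset.mem_filter.2 ⟨Finset.mem_univ _, fun h' => h h'.symm, u, hu1, hu2, rfl⟩
    have := (Finset.card_le_card hs).trans (Finset.card_insert_le _ _)
    omega
  refine (Finset.sum_le_sum h).trans ?_
  rw [Finset.sum_comm]
  refine Finset.sum_le_sum fun p _ => ?_
  rw [B, Finset.card_filter]

/-- the trimmed corner -/
def P (L k l r s x y : ℕ) : Prop :=
  x + y + 1 ≤ L ∧ y + k + 1 ≤ L ∧ x + l + 1 ≤ L ∧ (y + k + 2 ≤ L ∨ x < r) ∧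
    (x + l + 2 ≤ L ∨ y < s)

instance (L k l r s x y : ℕ) : Decidable (P L k l r s x y) := by unfold P; infer_instance

/-- the partition -/
def part (X L k l r s : ℕ) (v : ℕ × ℕ) : Fin 4 :=
  if P L k l r s v.1 v.2 then 0 else
  if P L k l r s (X - 1 - v.2) (X - 1 - v.1) then 3 else
  if v.2 ≤ v.1 then 2 else 1

/-- height of the corner over `x` -/
def H (L k r x : ℕ) : ℕ := if x < r then L - k else if x ≤ k then L - k - 1 else L - x

section
variable {X L k l r s : ℕ}

theorem part_zero (v : ℕ × ℕ) : part X L k l r s v = 0 ↔ P L k l r s v.1 v.2 := by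
  unfold part
  split_ifs <;> simp_all

theorem part_three (v : ℕ × ℕ) : part X L k l r s v = 3 ↔
    ¬ P L k l r s v.1 v.2 ∧ P L k l r s (X - 1 - v.2) (X - 1 - v.1) := by
  unfold part
  split_ifs <;> simp_all

theorem part_two (v : ℕ × ℕ) : part X L k l r s v = 2 ↔
    ¬ P L k l r s v.1 v.2 ∧ ¬ P L k l r s (X - 1 - v.2) (X - 1 - v.1) ∧ v.2 ≤ v.1 := by
  unfold part
  split_ifs <;> simp_all

theorem part_one (v : ℕ × ℕ) : part X L k l r s v = 1 ↔
    ¬ P L k l r s v.1 v.2 ∧ ¬ P L k l r s (X - 1 - v.2) (X - 1 - v.1) ∧ ¬ v.2 ≤ v.1 := by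
  unfold part
  split_ifs <;> simp_all

/-- the assumptions on the parameters -/
structure Good (X L k l r s : ℕ) : Prop where
  hk : 2 * k + 6 ≤ L
  hl : 2 * l + 6 ≤ L
  hX : L + 4 ≤ X
  hr : 1 ≤ r
  hr' : r ≤ k + 1
  hs : 1 ≤ s
  hs' : s ≤ l + 1

/-- the outer boundary of the corner, upper half -/
theorem out_up (hg : Good X L k l r s) (x y a b : ℕ) (hn : Near (a, b) (x, y))
    (hv : ¬ P L k l r s x y) (hu : P L k l r s a b) (hxy : x ≤ y) :
    x < L / 2 + 1 ∧ y = H L k r x := by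
  obtain ⟨h1, h2, h3, h4, h5, h6, h7⟩ := hg
  unfold P at hv hu
  unfold H
  simp only [Near, Prod.mk.injEq] at hn
  obtain ⟨g1, g2, g3, g4, g5⟩ := hu
  split_ifs <;> omega

theorem out_down (hg : Good X L k l r s) (x y a b : ℕ) (hn : Near (a, b) (x, y))
    (hv : ¬ P L k l r s x y) (hu : P L k l r s a b) (hxy : ¬ x ≤ y) :
    y < (L - 1) / 2 + 1 ∧ x = H L l s y := by
  obtain ⟨h1, h2, h3, h4, h5, h6, h7⟩ := hg
  unfold P at hv hu
  unfold H
  simp only [Near, Prod.mk.injEq] at hn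
  obtain ⟨g1, g2, g3, g4, g5⟩ := hu
  split_ifs <;> omega

/-- the inner boundary of the corner towards the part above the diagonal -/
theorem in_up (hg : Good X L k l r s) (x y a b : ℕ) (hn : Near (a, b) (x, y))
    (hv : P L k l r s x y) (hu : ¬ P L k l r s a b) (hab : ¬ b ≤ a) :
    x < (L - 1) / 2 + 1 ∧ y = H L k r x - 1 := by
  obtain ⟨h1, h2, h3, h4, h5, h6, h7⟩ := hg
  unfold P at hv hu
  unfold H
  simp only [Near, Prod.mk.injEq] at hn
  obtain ⟨g1, g2, g3, g4, g5⟩ := hv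
  split_ifs <;> omega

theorem in_down (hg : Good X L k l r s) (x y a b : ℕ) (hn : Near (a, b) (x, y))
    (hv : P L k l r s x y) (hu : ¬ P L k l r s a b) (hab : b ≤ a) :
    y < L / 2 + 1 ∧ x = H L l s y - 1 := by
  obtain ⟨h1, h2, h3, h4, h5, h6, h7⟩ := hg
  unfold P at hv hu
  unfold H
  simp only [Near, Prod.mk.injEq] at hn
  obtain ⟨g1, g2, g3, g4, g5⟩ := hv
  split_ifs <;> omega

theorem not_P_diag (hg : Good X L k l r s) (x y : ℕ) (h : ¬ P L k l r s x y)
    (h1 : x ≤ y + 1) (h2 : y ≤ x + 1) : L ≤ x + y := by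
  obtain ⟨h1, h2, h3, h4, h5, h6, h7⟩ := hg
  unfold P at h
  omega

theorem diag_two (hg : Good X L k l r s) (x y a b : ℕ) (_ : x < X) (_ : y < X)
    (hn : Near (a, b) (x, y)) (h1 : ¬ P L k l r s x y)
    (h2 : ¬ P L k l r s (X - 1 - y) (X - 1 - x)) (hxy : y ≤ x) (hab : ¬ b ≤ a) :
    y = x ∧ (L + 1) / 2 ≤ x ∧ x < X - (L + 1) / 2 := by
  simp only [Near, Prod.mk.injEq] at hn
  have e : y = x := by omega
  have := not_P_diag hg _ _ h1 (by omega) (by omega)
  have := not_P_diag hg _ _ h2 (by omega) (by omega)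
  omega

theorem diag_one (hg : Good X L k l r s) (x y a b : ℕ) (_ : x < X) (_ : y < X)
    (hn : Near (a, b) (x, y)) (h1 : ¬ P L k l r s x y)
    (h2 : ¬ P L k l r s (X - 1 - y) (X - 1 - x)) (hxy : ¬ y ≤ x) (hab : b ≤ a) :
    y = x + 1 ∧ L / 2 ≤ x ∧ x < X - 1 - L / 2 := by
  simp only [Near, Prod.mk.injEq] at hn
  have e : y = x + 1 := by omega
  have := not_P_diag hg _ _ h1 (by omega) (by omega)
  have := not_P_diag hg _ _ h2 (by omega) (by omega)
  omega

/-- reflection in the antidiagonal -/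
def rho (X : ℕ) (v : ℕ × ℕ) : ℕ × ℕ := (X - 1 - v.2, X - 1 - v.1)

theorem rho_mem {v : ℕ × ℕ} (hv : v ∈ mesh X) : rho X v ∈ mesh X := by
  simp only [mesh, Finset.mem_product, Finset.mem_range, rho] at *
  omega

theorem rho_rho {v : ℕ × ℕ} (hv : v ∈ mesh X) : rho X (rho X v) = v := by
  obtain ⟨x, y⟩ := v
  simp only [mesh, Finset.mem_product, Finset.mem_range, rho, Prod.mk.injEq] at *
  omega

theorem near_rho {u v : ℕ × ℕ} (hu : u ∈ mesh X) (hv : v ∈ mesh X) (h : Near u v) :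
    Near (rho X u) (rho X v) := by
  obtain ⟨x, y⟩ := v
  obtain ⟨a, b⟩ := u
  simp only [mesh, Finset.mem_product, Finset.mem_range, rho, Near, Prod.mk.injEq] at *
  omega

theorem P_disj (hg : Good X L k l r s) {v : ℕ × ℕ} (hv : v ∈ mesh X)
    (h : P L k l r s v.1 v.2) : ¬ P L k l r s (X - 1 - v.2) (X - 1 - v.1) := by
  obtain ⟨x, y⟩ := v
  obtain ⟨h1, h2, h3, h4, h5, h6, h7⟩ := hg
  simp only [mesh, Finset.mem_product, Finset.mem_range] at hv
  unfold P at *
  simp only at *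
  omega

theorem rho_inj : Set.InjOn (rho X) (mesh X : Set (ℕ × ℕ)) := by
  intro u hu v hv h
  rw [← rho_rho (X := X) hu, h, rho_rho hv]

/-- the part of a reflected point -/
theorem part_rho (hg : Good X L k l r s) {v : ℕ × ℕ} (hv : v ∈ mesh X) :
    (part X L k l r s v = 3 → part X L k l r s (rho X v) = 0) ∧
    (part X L k l r s v ≠ 3 → part X L k l r s (rho X v) ≠ 0) ∧
    (part X L k l r s v = 1 → part X L k l r s (rho X v) = 1) ∧
    (part X L k l r s v = 2 → part X L k l r s (rho X v) = 2) := by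
  have hvv : (X - 1 - (rho X v).2, X - 1 - (rho X v).1) = v := rho_rho hv
  have e1 : X - 1 - (rho X v).2 = v.1 := by rw [← congrArg Prod.fst hvv]
  have e2 : X - 1 - (rho X v).1 = v.2 := by rw [← congrArg Prod.snd hvv]
  have hle : v.2 ≤ v.1 ↔ (rho X v).2 ≤ (rho X v).1 := by
    obtain ⟨x, y⟩ := v
    simp only [mesh, Finset.mem_product, Finset.mem_range, rho] at *
    omega
  refine ⟨fun h => ?_, fun h => ?_, fun h => ?_, fun h => ?_⟩
  · rw [part_zero]
    exact ((part_three v).1 h).2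
  · intro h'
    rw [part_zero] at h'
    refine h ((part_three v).2 ⟨fun h1 => P_disj hg hv h1 h', h'⟩)
  · obtain ⟨h1, h2, h3⟩ := (part_one v).1 h
    rw [part_one, e1, e2]
    exact ⟨h2, h1, fun h4 => h3 (hle.2 h4)⟩
  · obtain ⟨h1, h2, h3⟩ := (part_two v).1 h
    rw [part_two, e1, e2]
    exact ⟨h2, h1, hle.1 h3⟩

theorem card_zero (hg : Good X L k l r s) :
    (B X (part X L k l r s) 0).card ≤ L / 2 + 1 + ((L - 1) / 2 + 1) := by
  have hs : B X (part X L k l r s) 0 ⊆
      (range (L / 2 + 1)).image (fun x => (x, H L k r x)) ∪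
      (range ((L - 1) / 2 + 1)).image (fun y => (H L l s y, y)) := by
    rintro ⟨x, y⟩ hv
    obtain ⟨_, hv0, ⟨a, b⟩, _, hn, hu0⟩ := Finset.mem_filter.1 hv
    rw [part_zero] at hu0
    rw [Ne, part_zero] at hv0
    rw [Finset.mem_union, Finset.mem_image, Finset.mem_image]
    by_cases hxy : x ≤ y
    · obtain ⟨h1, h2⟩ := out_up hg x y a b hn hv0 hu0 hxy
      exact Or.inl ⟨x, Finset.mem_range.2 h1, by rw [h2]⟩
    · obtain ⟨h1, h2⟩ := out_down hg x y a b hn hv0 hu0 hxy
      exact Or.inr ⟨y, Finset.mem_range.2 h1, by rw [h2]⟩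
  refine (Finset.card_le_card hs).trans ((Finset.card_union_le _ _).trans (add_le_add ?_ ?_))
  · exact Finset.card_image_le.trans (by simp)
  · exact Finset.card_image_le.trans (by simp)

theorem card_three (hg : Good X L k l r s) :
    (B X (part X L k l r s) 3).card ≤ (B X (part X L k l r s) 0).card := by
  refine Finset.card_le_card_of_injOn (rho X) ?_ ?_
  · intro v hv
    obtain ⟨hm, hv0, u, hum, hn, hu0⟩ := Finset.mem_filter.1 hv
    refine Finset.mem_filter.2 ⟨rho_mem hm, (part_rho hg hm).2.1 hv0, rho X u, rho_mem hum,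
      near_rho hum hm hn, (part_rho hg hum).1 hu0⟩
  · exact rho_inj.mono fun v hv => (Finset.mem_filter.1 hv).1

/-- points of the part `q` with a neighbour in the part `p` -/
def D (X : ℕ) (c : ℕ × ℕ → Fin 4) (q p : Fin 4) : Finset (ℕ × ℕ) :=
  (mesh X).filter fun v => c v = q ∧ ∃ u ∈ mesh X, Near u v ∧ c u = p

theorem D_three (hg : Good X L k l r s) (p : Fin 4) (hp : p = 1 ∨ p = 2) :
    (D X (part X L k l r s) 3 p).card ≤ (D X (part X L k l r s) 0 p).card := by
  refine Finset.card_le_card_of_injOn (rho X) ?_ ?_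
  · intro v hv
    obtain ⟨hm, hv0, u, hum, hn, hu0⟩ := Finset.mem_filter.1 hv
    refine Finset.mem_filter.2 ⟨rho_mem hm, (part_rho hg hm).1 hv0, rho X u, rho_mem hum,
      near_rho hum hm hn, ?_⟩
    rcases hp with rfl | rfl
    · exact (part_rho hg hum).2.2.1 hu0
    · exact (part_rho hg hum).2.2.2 hu0
  · exact rho_inj.mono fun v hv => (Finset.mem_filter.1 hv).1

theorem D_zero_one (hg : Good X L k l r s) :
    (D X (part X L k l r s) 0 1).card ≤ (L - 1) / 2 + 1 := by
  have hs : D X (part X L k l r s) 0 1 ⊆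
      (range ((L - 1) / 2 + 1)).image (fun x => (x, H L k r x - 1)) := by
    rintro ⟨x, y⟩ hv
    obtain ⟨_, hv0, ⟨a, b⟩, _, hn, hu0⟩ := Finset.mem_filter.1 hv
    rw [part_one] at hu0
    rw [part_zero] at hv0
    obtain ⟨h1, h2⟩ := in_up hg x y a b hn hv0 hu0.1 hu0.2.2
    exact Finset.mem_image.2 ⟨x, Finset.mem_range.2 h1, by rw [h2]⟩
  exact (Finset.card_le_card hs).trans (Finset.card_image_le.trans (by simp))

theorem D_zero_two (hg : Good X L k l r s) :
    (D X (part X L k l r s) 0 2).card ≤ L / 2 + 1 := by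
  have hs : D X (part X L k l r s) 0 2 ⊆
      (range (L / 2 + 1)).image (fun y => (H L l s y - 1, y)) := by
    rintro ⟨x, y⟩ hv
    obtain ⟨_, hv0, ⟨a, b⟩, _, hn, hu0⟩ := Finset.mem_filter.1 hv
    rw [part_two] at hu0
    rw [part_zero] at hv0
    obtain ⟨h1, h2⟩ := in_down hg x y a b hn hv0 hu0.1 hu0.2.2
    exact Finset.mem_image.2 ⟨y, Finset.mem_range.2 h1, by rw [h2]⟩
  exact (Finset.card_le_card hs).trans (Finset.card_image_le.trans (by simp))

theorem D_two_one (hg : Good X L k l r s) :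
    (D X (part X L k l r s) 2 1).card ≤ X - (L + 1) / 2 - (L + 1) / 2 := by
  have hs : D X (part X L k l r s) 2 1 ⊆
      (Ico ((L + 1) / 2) (X - (L + 1) / 2)).image (fun x => (x, x)) := by
    rintro ⟨x, y⟩ hv
    obtain ⟨hm, hv0, ⟨a, b⟩, _, hn, hu0⟩ := Finset.mem_filter.1 hv
    simp only [mesh, Finset.mem_product, Finset.mem_range] at hm
    rw [part_one] at hu0
    rw [part_two] at hv0
    obtain ⟨h1, h2, h3⟩ := diag_two hg x y a b hm.1 hm.2 hn hv0.1 hv0.2.1 hv0.2.2 hu0.2.2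
    exact Finset.mem_image.2 ⟨x, Finset.mem_Ico.2 ⟨h2, h3⟩, by rw [h1]⟩
  exact (Finset.card_le_card hs).trans (Finset.card_image_le.trans (by simp))

theorem D_one_two (hg : Good X L k l r s) :
    (D X (part X L k l r s) 1 2).card ≤ X - 1 - L / 2 - L / 2 := by
  have hs : D X (part X L k l r s) 1 2 ⊆
      (Ico (L / 2) (X - 1 - L / 2)).image (fun x => (x, x + 1)) := by
    rintro ⟨x, y⟩ hv
    obtain ⟨hm, hv0, ⟨a, b⟩, _, hn, hu0⟩ := Finset.mem_filter.1 hv
    simp only [mesh, Finset.mem_product, Finset.mem_range] at hm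
    rw [part_two] at hu0
    rw [part_one] at hv0
    obtain ⟨h1, h2, h3⟩ := diag_one hg x y a b hm.1 hm.2 hn hv0.1 hv0.2.1 hv0.2.2 hu0.2.2
    exact Finset.mem_image.2 ⟨x, Finset.mem_Ico.2 ⟨h2, h3⟩, by rw [h1]⟩
  exact (Finset.card_le_card hs).trans (Finset.card_image_le.trans (by simp))

theorem B_le (c : ℕ × ℕ → Fin 4) (p : Fin 4) (q : Fin 4) (hpq : (p = 1 ∧ q = 2) ∨ (p = 2 ∧ q = 1)) :
    (B X c p).card ≤ (D X c 0 p).card + (D X c 3 p).card + (D X c q p).card := by
  have hs : B X c p ⊆ (D X c 0 p ∪ D X c 3 p) ∪ D X c q p := by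
    intro v hv
    obtain ⟨hm, hv0, hu⟩ := Finset.mem_filter.1 hv
    simp only [D, Finset.mem_union, Finset.mem_filter]
    have : c v = 0 ∨ c v = 3 ∨ c v = q := by
      rcases hpq with ⟨rfl, rfl⟩ | ⟨rfl, rfl⟩
      · generalize c v = w at *
        fin_cases w <;> simp_all
      · generalize c v = w at *
        fin_cases w <;> simp_all
    rcases this with h | h | h
    · exact Or.inl (Or.inl ⟨hm, h, hu⟩)
    · exact Or.inl (Or.inr ⟨hm, h, hu⟩)
    · exact Or.inr ⟨hm, h, hu⟩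
  refine (Finset.card_le_card hs).trans ((Finset.card_union_le _ _).trans ?_)
  exact add_le_add (Finset.card_union_le _ _) le_rfl

/-- the cost of the partition -/
theorem cost_part (hg : Good X L k l r s) : cost X (part X L k l r s) ≤ 2 * L + 2 * X + 3 := by
  have h0 := card_zero hg
  have h3 := card_three hg
  have h1 := B_le (X := X) (part X L k l r s) 1 2 (Or.inl ⟨rfl, rfl⟩)
  have h2 := B_le (X := X) (part X L k l r s) 2 1 (Or.inr ⟨rfl, rfl⟩)
  have a1 := D_three hg 1 (Or.inl rfl)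
  have a2 := D_three hg 2 (Or.inr rfl)
  have b1 := D_zero_one hg
  have b2 := D_zero_two hg
  have c1 := D_two_one hg
  have c2 := D_one_two hg
  have hc := cost_le X (part X L k l r s)
  rw [Fin.sum_univ_four] at hc
  have hX := hg.hX
  have hk := hg.hk
  omega

end

end Pool.Agent.X33.Mesh
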