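import Pool.Agent.X33.Mesh

set_option autoImplicit false

namespace Pool.Agent.X33.Mesh

open Finset

section
variable {X L k l r s : ℕ}

/-- number of points of the corner in column `x` (rows and columns exchanged: swap the
parameters) -/
def N (L k l r s x : ℕ) : ℕ :=
  if x < r then L - k else if x ≤ k then L - k - 1 else if x + l + 2 ≤ L then L - x
  else if x + l + 1 = L then s else 0

/-- number of points of the lower part of the band in column `x` -/
def M (X L k l r s x : ℕ) : ℕ := min (x + 1) (X - N L l k s r (X - 1 - x)) - N L k l r s x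

def sumTo (f : ℕ → ℕ) : ℕ → ℕ
  | 0 => 0
  | n + 1 => sumTo f n + f n

theorem sum_eq (f : ℕ → ℕ) (n : ℕ) : ∑ x ∈ range n, f x = sumTo f n := by
  induction n with
  | zero => rfl
  | succ n ih => rw [Finset.sum_range_succ, ih, sumTo]

theorem P_iff (hg : Good X L k l r s) (x y : ℕ) : P L k l r s x y ↔ y < N L k l r s x := by
  obtain ⟨h1, h2, h3, h4, h5, h6, h7⟩ := hg
  unfold P N
  split_ifs <;> omega

theorem P_iff' (hg : Good X L k l r s) (x y : ℕ) : P L k l r s x y ↔ x < N L l k s r y := by
  obtain ⟨h1, h2, h3, h4, h5, h6, h7⟩ := hg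
  unfold P N
  split_ifs <;> omega

theorem N_le (hg : Good X L k l r s) (x : ℕ) : N L k l r s x ≤ L := by
  obtain ⟨h1, h2, h3, h4, h5, h6, h7⟩ := hg
  unfold N
  split_ifs <;> omega

theorem Good.swap (hg : Good X L k l r s) : Good X L l k s r :=
  ⟨hg.hl, hg.hk, hg.hX, hg.hs, hg.hs', hg.hr, hg.hr'⟩

theorem card_mesh_filter (X : ℕ) (q : ℕ × ℕ → Prop) [DecidablePred q] (f : ℕ → ℕ)
    (h : ∀ x < X, ((range X).filter fun y => q (x, y)).card = f x) :
    ((mesh X).filter q).card = sumTo f X := by
  rw [Finset.card_filter, mesh, Finset.sum_product, ← sum_eq]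
  refine Finset.sum_congr rfl fun x hx => ?_
  rw [← h x (Finset.mem_range.1 hx), Finset.card_filter]

theorem card_part_zero (hg : Good X L k l r s) :
    ((mesh X).filter fun v => part X L k l r s v = 0).card = sumTo (N L k l r s) X := by
  refine card_mesh_filter X _ _ fun x hx => ?_
  rw [show ((range X).filter fun y => part X L k l r s (x, y) = 0) = range (N L k l r s x) from ?_,
    Finset.card_range]
  ext y
  have h1 := P_iff hg x y
  have h2 := N_le hg x
  have h3 := hg.hX
  rw [Finset.mem_filter, part_zero, Finset.mem_range, Finset.mem_range]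
  simp only
  rw [h1]
  omega

theorem card_part_three (hg : Good X L k l r s) :
    ((mesh X).filter fun v => part X L k l r s v = 3).card =
      sumTo (fun x => N L l k s r (X - 1 - x)) X := by
  refine card_mesh_filter X _ _ fun x hx => ?_
  rw [show ((range X).filter fun y => part X L k l r s (x, y) = 3) =
      Ico (X - N L l k s r (X - 1 - x)) X from ?_, Nat.card_Ico]
  · have h2 := N_le hg.swap (X - 1 - x)
    have h3 := hg.hX
    omega
  ext y
  have h1 := P_iff' hg (X - 1 - y) (X - 1 - x)
  have h2 := N_le hg.swap (X - 1 - x)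
  have h3 := hg.hX
  rw [Finset.mem_filter, part_three, Finset.mem_range, Finset.mem_Ico]
  simp only
  constructor
  · rintro ⟨h4, h5, h6⟩
    rw [h1] at h6
    omega
  · rintro ⟨h4, h5⟩
    have h6 : P L k l r s (X - 1 - y) (X - 1 - x) := by
      rw [h1]
      omega
    refine ⟨h5, fun h7 => ?_, h6⟩
    refine P_disj hg (v := (x, y)) ?_ h7 h6
    simp only [mesh, Finset.mem_product, Finset.mem_range]
    exact ⟨hx, h5⟩

theorem card_part_two (hg : Good X L k l r s) :
    ((mesh X).filter fun v => part X L k l r s v = 2).card = sumTo (M X L k l r s) X := by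
  refine card_mesh_filter X _ _ fun x hx => ?_
  rw [show ((range X).filter fun y => part X L k l r s (x, y) = 2) =
      Ico (N L k l r s x) (min (x + 1) (X - N L l k s r (X - 1 - x))) from ?_, Nat.card_Ico]
  · rfl
  ext y
  have h1 := P_iff' hg (X - 1 - y) (X - 1 - x)
  have h0 := P_iff hg x y
  have h2 := N_le hg.swap (X - 1 - x)
  have h3 := hg.hX
  rw [Finset.mem_filter, part_two, Finset.mem_range, Finset.mem_Ico]
  simp only
  rw [h0, h1]
  omega

theorem balanced (hg : Good X L k l r s) (n : ℕ) (hn : 4 * n = X ^ 2)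
    (h0 : sumTo (N L k l r s) X = n) (h3 : sumTo (fun x => N L l k s r (X - 1 - x)) X = n)
    (h2 : sumTo (M X L k l r s) X = n) : Balanced X (part X L k l r s) := by
  have e0 := card_part_zero hg
  have e3 := card_part_three hg
  have e2 := card_part_two hg
  have hsum : ∑ i : Fin 4, ((mesh X).filter fun v => part X L k l r s v = i).card = X ^ 2 := by
    rw [← Finset.card_eq_sum_card_fiberwise (f := part X L k l r s) (t := univ)
      (fun _ _ => Finset.mem_coe.2 (Finset.mem_univ _))]
    rw [mesh, Finset.card_product, Finset.card_range, sq]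
  rw [Fin.sum_univ_four, e0, e3, e2, h0, h3, h2] at hsum
  intro i
  fin_cases i
  · simp only [Fin.zero_eta]
    rw [e0, h0]
    exact hn
  · simp only [Fin.mk_one]
    omega
  · simp only [Fin.reduceFinMk]
    rw [e2, h2]
    exact hn
  · simp only [Fin.reduceFinMk]
    rw [e3, h3]
    exact hn

theorem V_le (hg : Good X L k l r s) (n : ℕ) (hn : 4 * n = X ^ 2)
    (h0 : sumTo (N L k l r s) X = n) (h3 : sumTo (fun x => N L l k s r (X - 1 - x)) X = n)
    (h2 : sumTo (M X L k l r s) X = n) :
    IsLeast {m | ∃ c, Balanced X c ∧ cost X c = m} (V X) ∧ V X ≤ 2 * L + 2 * X + 3 := by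
  have hb := balanced hg n hn h0 h3 h2
  have hmem : cost X (part X L k l r s) ∈ {m | ∃ c, Balanced X c ∧ cost X c = m} := ⟨_, hb, rfl⟩
  have hle : V X ≤ cost X (part X L k l r s) := Nat.sInf_le hmem
  exact ⟨⟨Nat.sInf_mem ⟨_, hmem⟩, fun m hm => Nat.sInf_le hm⟩, hle.trans (cost_part hg)⟩

end

theorem V16 : IsLeast {m | ∃ c, Balanced 16 c ∧ cost 16 c = m} (V 16) ∧ V 16 ≤ 57 :=
  V_le (L := 11) (k := 1) (l := 0) (r := 1) (s := 1) ⟨by norm_num, by norm_num, by norm_num,
    by norm_num, by norm_num, by norm_num, by norm_num⟩ 64 (by norm_num)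
    (by decide +kernel) (by decide +kernel) (by decide +kernel)

theorem V64 : IsLeast {m | ∃ c, Balanced 64 c ∧ cost 64 c = m} (V 64) ∧ V 64 ≤ 221 :=
  V_le (L := 45) (k := 4) (l := 1) (r := 5) (s := 2) ⟨by norm_num, by norm_num, by norm_num,
    by norm_num, by norm_num, by norm_num, by norm_num⟩ 1024 (by norm_num)
    (by decide +kernel) (by decide +kernel) (by decide +kernel)

theorem V256 : IsLeast {m | ∃ c, Balanced 256 c ∧ cost 256 c = m} (V 256) ∧ V 256 ≤ 877 :=
  V_le (L := 181) (k := 10) (l := 6) (r := 4) (s := 3) ⟨by norm_num, by norm_num, by norm_num,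
    by norm_num, by norm_num, by norm_num, by norm_num⟩ 16384 (by norm_num)
    (by decide +kernel) (by decide +kernel) (by decide +kernel)

theorem V1024 : IsLeast {m | ∃ c, Balanced 1024 c ∧ cost 1024 c = m} (V 1024) ∧ V 1024 ≤ 3499 :=
  V_le (L := 724) (k := 20) (l := 12) (r := 3) (s := 13) ⟨by norm_num, by norm_num, by norm_num,
    by norm_num, by norm_num, by norm_num, by norm_num⟩ 262144 (by norm_num)
    (by decide +kernel) (by decide +kernel) (by decide +kernel)

theorem V2048 : IsLeast {m | ∃ c, Balanced 2048 c ∧ cost 2048 c = m} (V 2048) ∧ V 2048 ≤ 6995 :=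
  V_le (L := 1448) (k := 27) (l := 13) (r := 6) (s := 5) ⟨by norm_num, by norm_num, by norm_num,
    by norm_num, by norm_num, by norm_num, by norm_num⟩ 1048576 (by norm_num)
    (by decide +kernel) (by decide +kernel) (by decide +kernel)

end Pool.Agent.X33.Mesh
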